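import Pool.Agent.T6.H74.ET.Defs

/-!
# The 3-restricted system

The positions are the elements of `ZMod K`. A position `P` is a resting position (`act P = none`),
the position of a table `τ` (`act P = some (some τ)`), or a final position (`act P = some none`).
-/

set_option autoImplicit false

namespace Pool.Agent.T6.H74.ET

open Sum

/-- The new nonterminals: the master `M`, the tokens `D j`, the letters `C c` of the class `P`,
and the dead letter. -/
inductive NT (S : Type) (K m : ℕ) : Type
  | M (P : ZMod K) (χ : Bool) : NT S K m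
  | D (j : Fin (m + 1)) (P : ZMod K) : NT S K m
  | C (c : S) (P : ZMod K) : NT S K m
  | F : NT S K m

/-- The indices of the new tables. -/
inductive Idx (S : Type) (K m : ℕ) : Type
  | mv (P : ZMod K) (χ : Bool) : Idx S K m
  | dv (j : Fin (m + 1)) (P : ZMod K) : Idx S K m
  | cv (c : S) (P : ZMod K) (χ : Bool) : Idx S K m
  | er (j : Fin (m + 1)) : Idx S K m

section

variable {T : Type} (G : ET0L T) {K m : ℕ} (act : ZMod K → Option (Option G.ι))
  (e : (T ⊕ G.V) ≃ Fin m)

/-- new letters -/
abbrev Lt (T : Type) (S : Type) (K m : ℕ) : Type := T ⊕ NT S K m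

/-- new words -/
abbrev Wd (G : ET0L T) (K m : ℕ) : Type := List (Lt T (T ⊕ G.V) K m)

/-- what happens to the letter `c` of the class `P - 1` at the position `P` -/
noncomputable def op (P : ZMod K) (χ : Bool) (c : T ⊕ G.V) : Set (Wd G K m) :=
  match act P, χ, c with
  | some (some τ), true, c => (List.map fun d => inr (NT.C d P)) '' G.table τ c
  | some none, true, inl a => {[inl a]}
  | some none, true, inr _ => {[inr NT.F]}
  | _, _, c => {[inr (NT.C c P)]}

open Classical in
/-- the images of the master -/
noncomputable def next (P : ZMod K) (χ : Bool) : Set (Wd G K m) :=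
  if act P = some none ∧ χ = true then {[]}
  else {u | ∃ χ', (χ' = true → act (P + 1) ≠ none) ∧ u = [inr (NT.M (P + 1) χ')]}

open Classical in
/-- the letters which are dead if the token `j` moves from `P` -/
noncomputable def guardD (j : Fin (m + 1)) (P : ZMod K) : Set (Lt T (T ⊕ G.V) K m) :=
  if h : j.val < m then
    {inr (NT.D ⟨j.val + 1, by omega⟩ P), inr (NT.C (e.symm ⟨j.val, h⟩) (P - 1))}
  else {inr (NT.M (P - 1) false), inr (NT.M (P - 1) true)}

open Classical in
/-- the letters which are dead if the letters of the class `P - 1` are processed -/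
noncomputable def guardC (P : ZMod K) (χ : Bool) : Set (Lt T (T ⊕ G.V) K m) :=
  if act (P - 1) ≠ none then {inr (NT.M (P - 1) false), inr (NT.M (P - 1) true)}
  else {inr (NT.M (P - 1) false), inr (NT.M P (!χ))}

open Classical in
/-- the new tables -/
noncomputable def tbl : Idx (T ⊕ G.V) K m → Lt T (T ⊕ G.V) K m → Set (Wd G K m)
  | Idx.mv P χ, x => if x = inr (NT.M P χ) then next G act P χ
      else if x = inr (NT.D 0 P) then {[inr NT.F]} else {[x]}
  | Idx.dv j P, x => if x = inr (NT.D j P) then {[inr (NT.D j (P + 1))]}
      else if x ∈ guardD G e j P then {[inr NT.F]} else {[x]}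
  | Idx.cv c P χ, x => if x = inr (NT.C c (P - 1)) then op G act P χ c
      else if x ∈ guardC G act P χ then {[inr NT.F]} else {[x]}
  | Idx.er j, x => if x = inr (NT.D j 0) then {[]}
      else if x = inr (NT.M (-1) false) ∨ x = inr (NT.M 0 false) then {[inr NT.F]} else {[x]}

/-- the tokens -/
def Dl (P : ZMod K) (k : ℕ) : Wd G K m :=
  (List.finRange (m + 1)).map fun j => inr (NT.D j (if k ≤ j.val then P + 1 else P))

/-- the sentential forms with master -/
def W (P : ZMod K) (χ : Bool) (k : ℕ) (body : Wd G K m) : Wd G K m :=
  inr (NT.M P χ) :: (Dl G P k ++ body)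

/-- the letters of the class `P` -/
def cls (P : ZMod K) (x : List (T ⊕ G.V)) : Wd G K m := x.map fun c => inr (NT.C c P)

/-- the sentential form at the beginning of the time of the position `P` -/
def S (P : ZMod K) (χ : Bool) (x : List (T ⊕ G.V)) : Wd G K m :=
  W G P χ (m + 1) (cls G (P - 1) x)

end

/-- equivalence with a sum type -/
def NT.toSum {S : Type} {K m : ℕ} :
    NT S K m → ((ZMod K × Bool) ⊕ (Fin (m + 1) × ZMod K)) ⊕ ((S × ZMod K) ⊕ Unit)
  | NT.M P χ => inl (inl (P, χ))
  | NT.D j P => inl (inr (j, P))
  | NT.C c P => inr (inl (c, P))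
  | NT.F => inr (inr ())

theorem NT.toSum_injective {S : Type} {K m : ℕ} :
    Function.Injective (NT.toSum (S := S) (K := K) (m := m)) := by
  intro x y h
  cases x <;> cases y <;> simp_all [NT.toSum]

instance {S : Type} {K m : ℕ} [NeZero K] [Finite S] : Finite (NT S K m) :=
  Finite.of_injective _ NT.toSum_injective

/-- equivalence with a sum type -/
def Idx.toSum {S : Type} {K m : ℕ} :
    Idx S K m → ((ZMod K × Bool) ⊕ (Fin (m + 1) × ZMod K)) ⊕ ((S × ZMod K × Bool) ⊕ Fin (m + 1))
  | Idx.mv P χ => inl (inl (P, χ))
  | Idx.dv j P => inl (inr (j, P))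
  | Idx.cv c P χ => inr (inl (c, P, χ))
  | Idx.er j => inr (inr j)

theorem Idx.toSum_injective {S : Type} {K m : ℕ} :
    Function.Injective (Idx.toSum (S := S) (K := K) (m := m)) := by
  intro x y h
  cases x <;> cases y <;> simp_all [Idx.toSum]

instance {S : Type} {K m : ℕ} [NeZero K] [Finite S] : Finite (Idx S K m) :=
  Finite.of_injective _ Idx.toSum_injective

section

variable {T : Type} (G : ET0L T) {K m : ℕ} (act : ZMod K → Option (Option G.ι))
  (e : (T ⊕ G.V) ≃ Fin m)

theorem op_finite (P : ZMod K) (χ : Bool) (c : T ⊕ G.V) : (op G (m := m) act P χ c).Finite := by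
  unfold op
  split
  · exact (G.finite_table _ _).image _
  all_goals exact Set.finite_singleton _

theorem op_nonempty (P : ZMod K) (χ : Bool) (c : T ⊕ G.V) :
    (op G (m := m) act P χ c).Nonempty := by
  unfold op
  split
  · exact (G.nonempty_table _ _).image _
  all_goals exact Set.singleton_nonempty _

theorem next_finite (P : ZMod K) (χ : Bool) : (next G (m := m) act P χ).Finite := by
  unfold next
  split_ifs
  · exact Set.finite_singleton _
  · refine (Set.finite_range fun χ' : Bool => [inr (NT.M (P + 1) χ')]).subset ?_
    rintro u ⟨χ', -, rfl⟩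
    exact ⟨χ', rfl⟩

theorem next_nonempty (P : ZMod K) (χ : Bool) : (next G (m := m) act P χ).Nonempty := by
  unfold next
  split_ifs
  · exact Set.singleton_nonempty _
  · exact ⟨_, false, by simp, rfl⟩

/-- the new system -/
noncomputable def newSys [Finite T] [NeZero K] : ET0L T where
  V := NT (T ⊕ G.V) K m
  ι := Idx (T ⊕ G.V) K m
  finV := by have := G.finV; infer_instance
  finι := by have := G.finV; infer_instance
  neι := ⟨Idx.mv 0 false⟩
  table := tbl G act e
  finite_table := by
    intro i c
    cases i <;> unfold tbl <;> dsimp only <;> split_ifs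
    any_goals exact Set.finite_singleton _
    · exact next_finite G act _ _
    · exact op_finite G act _ _ _
  nonempty_table := by
    intro i c
    cases i <;> unfold tbl <;> dsimp only <;> split_ifs
    any_goals exact Set.singleton_nonempty _
    · exact next_nonempty G act _ _
    · exact op_nonempty G act _ _ _
  axm := S G 0 false G.axm
  axm_ne := by simp [S, W]

theorem encard_le_three {α : Type*} {s : Set α} (a b c : α) (h : s ⊆ {a, b, c}) :
    s.encard ≤ (3 : ℕ) := by
  classical
  refine (Set.encard_le_encard h).trans ?_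
  have h1 : ({a, b, c} : Set α) = (({a, b, c} : Finset α) : Set α) := by simp
  rw [h1, Set.encard_coe_eq_coe_finsetCard]
  exact_mod_cast Finset.card_le_three

theorem newSys_restricted [Finite T] [NeZero K] : (newSys G act e).Restricted 3 := by
  intro i
  show {c | tbl G act e i c ≠ {[c]}}.encard ≤ _
  rcases i with ⟨P, χ⟩ | ⟨j, P⟩ | ⟨c, P, χ⟩ | j
  · refine encard_le_three (inr (NT.M P χ)) (inr (NT.D 0 P)) (inr (NT.D 0 P)) ?_
    intro x hx
    by_contra hn
    simp only [Set.mem_insert_iff, Set.mem_singleton_iff, not_or] at hn
    refine hx ?_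
    unfold tbl
    dsimp only
    rw [if_neg hn.1, if_neg hn.2.1]
  · by_cases hj : j.val < m
    · refine encard_le_three (inr (NT.D j P)) (inr (NT.D ⟨j.val + 1, by omega⟩ P))
        (inr (NT.C (e.symm ⟨j.val, hj⟩) (P - 1))) ?_
      intro x hx
      by_contra hn
      simp only [Set.mem_insert_iff, Set.mem_singleton_iff, not_or] at hn
      refine hx ?_
      unfold tbl
      dsimp only
      rw [if_neg hn.1, if_neg]
      unfold guardD
      rw [dif_pos hj]
      simp only [Set.mem_insert_iff, Set.mem_singleton_iff, not_or]
      exact hn.2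
    · refine encard_le_three (inr (NT.D j P)) (inr (NT.M (P - 1) false))
        (inr (NT.M (P - 1) true)) ?_
      intro x hx
      by_contra hn
      simp only [Set.mem_insert_iff, Set.mem_singleton_iff, not_or] at hn
      refine hx ?_
      unfold tbl
      dsimp only
      rw [if_neg hn.1, if_neg]
      unfold guardD
      rw [dif_neg hj]
      simp only [Set.mem_insert_iff, Set.mem_singleton_iff, not_or]
      exact hn.2
  · by_cases ha : act (P - 1) ≠ none
    · refine encard_le_three (inr (NT.C c (P - 1))) (inr (NT.M (P - 1) false))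
        (inr (NT.M (P - 1) true)) ?_
      intro x hx
      by_contra hn
      simp only [Set.mem_insert_iff, Set.mem_singleton_iff, not_or] at hn
      refine hx ?_
      unfold tbl
      dsimp only
      rw [if_neg hn.1, if_neg]
      unfold guardC
      rw [if_pos ha]
      simp only [Set.mem_insert_iff, Set.mem_singleton_iff, not_or]
      exact hn.2
    · refine encard_le_three (inr (NT.C c (P - 1))) (inr (NT.M (P - 1) false))
        (inr (NT.M P (!χ))) ?_
      intro x hx
      by_contra hn
      simp only [Set.mem_insert_iff, Set.mem_singleton_iff, not_or] at hn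
      refine hx ?_
      unfold tbl
      dsimp only
      rw [if_neg hn.1, if_neg]
      unfold guardC
      rw [if_neg ha]
      simp only [Set.mem_insert_iff, Set.mem_singleton_iff, not_or]
      exact hn.2
  · refine encard_le_three (inr (NT.D j 0)) (inr (NT.M (-1) false)) (inr (NT.M 0 false)) ?_
    intro x hx
    by_contra hn
    simp only [Set.mem_insert_iff, Set.mem_singleton_iff, not_or] at hn
    refine hx ?_
    unfold tbl
    dsimp only
    rw [if_neg hn.1, if_neg]
    exact not_or.2 hn.2

end

end Pool.Agent.T6.H74.ET
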