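import Pool.Agent.T6.H74.ET.Sound

/-!
# Completeness of the 3-restricted system
-/

set_option autoImplicit false

namespace Pool.Agent.T6.H74.ET

open Sum

section

variable {T : Type} {G : ET0L T} {K m : ℕ} {act : ZMod K → Option (Option G.ι)}
  {e : (T ⊕ G.V) ≃ Fin m}

variable (G act e) in
/-- one step of the new system -/
def NStep (x y : Wd G K m) : Prop := ∃ i, Rw (tbl G act e i) x y

variable (G act e) in
/-- derivations of the new system -/
def NDer : Wd G K m → Wd G K m → Prop := Relation.ReflTransGen (NStep G act e)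

theorem Rw.exists_pairs {α β : Type*} {h : α → Set (List β)} {x : List α} {y : List β}
    (H : Rw h x y) : ∃ ps : List (α × List β), ps.map Prod.fst = x ∧ ps.flatMap Prod.snd = y ∧
      ∀ p ∈ ps, p.2 ∈ h p.1 := by
  induction H with
  | nil => exact ⟨[], rfl, rfl, by simp⟩
  | @cons c u _ _ hu _ ih =>
    obtain ⟨ps, h1, h2, h3⟩ := ih
    refine ⟨(c, u) :: ps, ?_, ?_, ?_⟩
    · rw [List.map_cons, h1]
    · rw [List.flatMap_cons, h2]
    · intro p hp
      rcases List.mem_cons.1 hp with rfl | hp
      · exact hu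
      · exact h3 p hp

theorem Rw.of_pairs {α β γ : Type*} {h : α → Set (List β)} {f : γ → List α} {g : γ → List β}
    {ps : List γ} (H : ∀ p ∈ ps, Rw h (f p) (g p)) : Rw h (ps.flatMap f) (ps.flatMap g) := by
  induction ps with
  | nil => exact Rw.nil
  | cons p ps ih =>
    rw [List.flatMap_cons, List.flatMap_cons]
    exact (H p List.mem_cons_self).append (ih fun q hq => H q (List.mem_cons_of_mem _ hq))

/-- the word at the stage `k` of the processing -/
noncomputable def stage (e : (T ⊕ G.V) ≃ Fin m) (P : ZMod K)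
    (ps : List ((T ⊕ G.V) × Wd G K m)) (k : ℕ) : Wd G K m :=
  ps.flatMap fun p => if k ≤ (e p.1).val then p.2 else [inr (NT.C p.1 (P - 1))]

theorem W_letter_fixed {i : Idx (T ⊕ G.V) K m} {w : Wd G K m}
    (h : ∀ l ∈ w, tbl G act e i l = {[l]}) : Rw (tbl G act e i) w w :=
  (Rw.id_iff h).2 rfl

theorem fixed_M {P : ZMod K} {χ : Bool} {i : Idx (T ⊕ G.V) K m}
    (h : match i with
      | Idx.mv Q χ' => (P, χ) ≠ (Q, χ')
      | Idx.dv j Q => j.val < m ∨ P ≠ Q - 1
      | Idx.cv _ Q χ' => Q = P ∧ χ' = χ ∧ P - 1 ≠ P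
      | Idx.er _ => P ≠ 0 ∧ P ≠ -1) :
    tbl G act e i (inr (NT.M P χ)) = {[inr (NT.M P χ)]} := by
  cases i with
  | mv Q χ' =>
    unfold tbl
    dsimp only at h ⊢
    rw [if_neg, if_neg (by simp)]
    intro h'
    refine h ?_
    simpa using h'
  | dv j Q =>
    unfold tbl
    dsimp only at h ⊢
    rw [if_neg (by simp), if_neg]
    intro h'
    rcases mem_guardD.1 h' with ⟨h1, h2 | h2⟩ | ⟨h1, h2 | h2⟩
    · cases h2
    · cases h2
    · rcases h with h | h
      · exact h1 h
      · refine h ?_
        have : P = Q - 1 ∧ χ = false := by simpa using h2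
        exact this.1
    · rcases h with h | h
      · exact h1 h
      · refine h ?_
        have : P = Q - 1 ∧ χ = true := by simpa using h2
        exact this.1
  | cv c Q χ' =>
    unfold tbl
    dsimp only at h ⊢
    obtain ⟨rfl, rfl, h⟩ := h
    rw [if_neg (by simp), if_neg]
    intro h'
    rcases mem_guardC.1 h' with ⟨h1, h2 | h2⟩ | ⟨h1, h2 | h2⟩
    · have : Q = Q - 1 ∧ χ' = false := by simpa using h2
      exact h this.1.symm
    · have : Q = Q - 1 ∧ χ' = true := by simpa using h2
      exact h this.1.symm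
    · have : Q = Q - 1 ∧ χ' = false := by simpa using h2
      exact h this.1.symm
    · cases χ' <;> simp at h2
  | er j =>
    unfold tbl
    dsimp only at h ⊢
    rw [if_neg (by simp), if_neg]
    rintro (h' | h')
    · have : P = -1 ∧ χ = false := by simpa using h'
      exact h.2 this.1
    · have : P = 0 ∧ χ = false := by simpa using h'
      exact h.1 this.1

/-- the letters of the images of `op` are not changed by the processing and by the tokens -/
theorem fixed_op_cv (hg : Good act) {P : ZMod K} {χ : Bool} {c d : T ⊕ G.V} {u : Wd G K m}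
    (hu : u ∈ op G act P χ c) {l : Lt T (T ⊕ G.V) K m} (hl : l ∈ u) :
    tbl G act e (Idx.cv d P χ) l = {[l]} := by
  rcases op_letter hu hl with ⟨d', rfl⟩ | ⟨a, rfl⟩ | rfl
  · unfold tbl
    dsimp only
    rw [if_neg, if_neg]
    · intro h'
      rcases mem_guardC.1 h' with ⟨h1, h2 | h2⟩ | ⟨h1, h2 | h2⟩ <;> cases h2
    · intro h'
      have h1 : d' = d ∧ P = P - 1 := by simpa using h'
      exact hg.one_ne (P - 1) (by rw [sub_add_cancel]; exact h1.2)
  · exact tbl_inl
  · exact F_fixed

theorem fixed_C_cv {P : ZMod K} {χ : Bool} {c d : T ⊕ G.V} (h : c ≠ d) :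
    tbl G act e (Idx.cv d P χ) (inr (NT.C c (P - 1))) = {[inr (NT.C c (P - 1))]} := by
  unfold tbl
  dsimp only
  rw [if_neg (by simpa using h), if_neg]
  intro h'
  rcases mem_guardC.1 h' with ⟨h1, h2 | h2⟩ | ⟨h1, h2 | h2⟩ <;> cases h2

theorem fixed_D_cv {P Q : ZMod K} {χ : Bool} {j : Fin (m + 1)} {d : T ⊕ G.V} :
    tbl G act e (Idx.cv d P χ) (inr (NT.D j Q)) = {[inr (NT.D j Q)]} := by
  unfold tbl
  dsimp only
  rw [if_neg (by simp), if_neg]
  intro h'
  rcases mem_guardC.1 h' with ⟨h1, h2 | h2⟩ | ⟨h1, h2 | h2⟩ <;> cases h2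

theorem pm_ne (hg : Good act) (P : ZMod K) : P - 1 ≠ P := fun h =>
  hg.one_ne (P - 1) (by rw [sub_add_cancel]; exact h.symm)

/-- one processing step -/
theorem step_cv (hg : Good act) {P : ZMod K} {χ : Bool} {k n : ℕ}
    {ps : List ((T ⊕ G.V) × Wd G K m)} (hps : ∀ p ∈ ps, p.2 ∈ op G act P χ p.1) (hn : n < m) :
    NStep G act e (W G P χ k (stage e P ps (n + 1))) (W G P χ k (stage e P ps n)) := by
  refine ⟨Idx.cv (e.symm ⟨n, hn⟩) P χ, ?_⟩
  have hM : ([inr (NT.M P χ)] : Wd G K m) ∈
      tbl G act e (Idx.cv (e.symm ⟨n, hn⟩) P χ) (inr (NT.M P χ)) := by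
    rw [fixed_M (i := Idx.cv (e.symm ⟨n, hn⟩) P χ) (P := P) (χ := χ) ⟨rfl, rfl, pm_ne hg P⟩]
    rfl
  refine Rw.cons hM ?_
  refine Rw.append ?_ ?_
  · refine W_letter_fixed ?_
    intro l hl
    obtain ⟨j, rfl⟩ := mem_Dl.1 hl
    exact fixed_D_cv
  · refine Rw.of_pairs ?_
    intro p hp
    by_cases h1 : n + 1 ≤ (e p.1).val
    · rw [if_pos h1, if_pos (by omega)]
      exact W_letter_fixed fun l hl => fixed_op_cv hg (hps p hp) hl
    · rw [if_neg h1]
      by_cases h2 : n ≤ (e p.1).val
      · rw [if_pos h2]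
        have h3 : p.1 = e.symm ⟨n, hn⟩ := by
          rw [Equiv.eq_symm_apply]
          exact Fin.ext (by simp only; omega)
        refine Rw.singleton ?_
        unfold tbl
        dsimp only
        rw [← h3, if_pos rfl]
        exact hps p hp
      · rw [if_neg h2]
        refine W_letter_fixed ?_
        intro l hl
        rw [List.mem_singleton.1 hl]
        refine fixed_C_cv ?_
        intro h3
        rw [h3, Equiv.apply_symm_apply] at h2
        exact h2 le_rfl

/-- one step of a token -/
theorem step_dv {P : ZMod K} {n : ℕ} (hn : n < m + 1)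
    (hP : P + 1 ≠ P)
    {pre body : Wd G K m}
    (h1 : ∀ l ∈ pre, tbl G act e (Idx.dv ⟨n, hn⟩ P) l = {[l]})
    (h2 : ∀ l ∈ body, tbl G act e (Idx.dv ⟨n, hn⟩ P) l = {[l]}) :
    NStep G act e (pre ++ (Dl G P (n + 1) ++ body)) (pre ++ (Dl G P n ++ body)) := by
  classical
  refine ⟨Idx.dv ⟨n, hn⟩ P, ?_⟩
  refine (W_letter_fixed h1).append (Rw.append ?_ (W_letter_fixed h2))
  have h3 : ∀ c ∈ (Dl G P (n + 1) : Wd G K m), tbl G act e (Idx.dv ⟨n, hn⟩ P) c =
      {[if c = inr (NT.D ⟨n, hn⟩ P) then inr (NT.D ⟨n, hn⟩ (P + 1)) else c]} := by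
    intro c hc
    obtain ⟨i, rfl⟩ := mem_Dl.1 hc
    unfold tbl
    dsimp only
    by_cases h : (inr (NT.D i (if n + 1 ≤ i.val then P + 1 else P)) : Lt T (T ⊕ G.V) K m) =
        inr (NT.D ⟨n, hn⟩ P)
    · rw [if_pos h, if_pos h]
    · rw [if_neg h, if_neg h, if_neg]
      intro h4
      rcases mem_guardD.1 h4 with ⟨h5, h6 | h6⟩ | ⟨h5, h6 | h6⟩
      · by_cases h7 : n + 1 ≤ i.val
        · have e1 : (if n + 1 ≤ i.val then P + 1 else P) = P + 1 := if_pos h7
          rw [e1] at h6
          have : i = ⟨n + 1, by omega⟩ ∧ P + 1 = P := by simpa using h6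
          exact hP this.2
        · have e1 : (if n + 1 ≤ i.val then P + 1 else P) = P := if_neg h7
          rw [e1] at h6
          have : i = ⟨n + 1, by simp only at h5; omega⟩ ∧ True := by simpa using h6
          rw [this.1] at h7
          exact h7 le_rfl
      · cases h6
      · cases h6
      · cases h6
  refine (Rw.map_iff h3).2 ?_
  symm
  unfold Dl
  rw [List.map_map]
  refine List.map_congr_left ?_
  intro i _
  rw [Function.comp_apply]
  by_cases hij : i.val = n
  · have e1 : (if n + 1 ≤ i.val then P + 1 else P) = P := if_neg (by omega)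
    have e2 : i = ⟨n, hn⟩ := Fin.ext hij
    rw [e1, if_pos (by rw [e2]), if_pos hij.ge, e2]
  · rw [if_neg (by
      intro h
      have : i = ⟨n, hn⟩ ∧ (if n + 1 ≤ i.val then P + 1 else P) = P := by simpa using h
      exact hij (congrArg Fin.val this.1))]
    by_cases h4 : n + 1 ≤ i.val
    · rw [if_pos h4, if_pos (by omega)]
    · rw [if_neg h4, if_neg (by omega)]

theorem fixed_dv_C {P Q : ZMod K} {j : Fin (m + 1)} {c : T ⊕ G.V}
    (h : j.val = (e c).val → Q ≠ P - 1) :
    tbl G act e (Idx.dv j P) (inr (NT.C c Q)) = {[inr (NT.C c Q)]} := by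
  unfold tbl
  dsimp only
  rw [if_neg (by simp), if_neg]
  intro h'
  rcases mem_guardD.1 h' with ⟨h1, h2 | h2⟩ | ⟨h1, h2 | h2⟩
  · cases h2
  · have h3 : c = e.symm ⟨j.val, h1⟩ ∧ Q = P - 1 := by simpa using h2
    refine h ?_ h3.2
    rw [h3.1, Equiv.apply_symm_apply]
  · cases h2
  · cases h2

theorem fixed_dv_stage (hg : Good act) {P : ZMod K} {χ : Bool} {n : ℕ} (hn : n < m + 1)
    {ps : List ((T ⊕ G.V) × Wd G K m)} (hps : ∀ p ∈ ps, p.2 ∈ op G act P χ p.1)
    {l : Lt T (T ⊕ G.V) K m} (hl : l ∈ stage e P ps n) :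
    tbl G act e (Idx.dv ⟨n, hn⟩ P) l = {[l]} := by
  unfold stage at hl
  obtain ⟨p, hp, hl⟩ := List.mem_flatMap.1 hl
  by_cases h : n ≤ (e p.1).val
  · rw [if_pos h] at hl
    rcases op_letter (hps p hp) hl with ⟨d', rfl⟩ | ⟨a, rfl⟩ | rfl
    · exact fixed_dv_C fun _ h' => pm_ne hg P h'.symm
    · exact tbl_inl
    · exact F_fixed
  · rw [if_neg h] at hl
    rw [List.mem_singleton.1 hl]
    refine fixed_dv_C fun h' _ => h ?_
    exact h'.le

theorem stage_last {P : ZMod K} {ps : List ((T ⊕ G.V) × Wd G K m)} {k : ℕ} (hk : m ≤ k) :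
    stage e P ps k = cls G (P - 1) (ps.map Prod.fst) := by
  unfold stage cls
  rw [List.map_map]
  induction ps with
  | nil => rfl
  | cons p ps ih =>
    rw [List.flatMap_cons, List.map_cons, ih, if_neg (by have := (e p.1).isLt; omega)]
    rfl

theorem stage_zero {P : ZMod K} {ps : List ((T ⊕ G.V) × Wd G K m)} :
    stage e P ps 0 = ps.flatMap Prod.snd := by
  unfold stage
  simp

/-- the processing of all letters at the position `P` -/
theorem process (hg : Good act) {P : ZMod K} {χ : Bool}
    {x : List (T ⊕ G.V)} {y : Wd G K m} (H : Rw (op G act P χ) x y) :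
    NDer G act e (S G P χ x) (W G P χ 0 y) := by
  obtain ⟨ps, rfl, rfl, hps⟩ := H.exists_pairs
  have key : ∀ n ≤ m, NDer G act e (S G P χ (ps.map Prod.fst))
      (W G P χ (m - n) (stage e P ps (m - n))) := by
    intro n hn
    induction n with
    | zero =>
      refine Relation.ReflTransGen.single ?_
      have h1 := step_dv (G := G) (act := act) (e := e) (P := P) (n := m) (Nat.lt_succ_self m)
        (hg.one_ne P)
        (pre := [inr (NT.M P χ)]) (body := stage e P ps m) ?_ ?_
      · unfold S
        rw [← stage_last (e := e) le_rfl]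
        exact h1
      · intro l hl
        rw [List.mem_singleton.1 hl]
        refine fixed_M ?_
        exact Or.inr (pm_ne hg P).symm
      · intro l hl
        exact fixed_dv_stage hg _ hps hl
    | succ n ih =>
      have hmn : m - n = (m - (n + 1)) + 1 := by omega
      refine (ih (by omega)).trans ?_
      rw [hmn]
      refine Relation.ReflTransGen.head (step_cv hg hps (by omega)) ?_
      refine Relation.ReflTransGen.single ?_
      refine step_dv (by omega) (hg.one_ne P) (pre := [inr (NT.M P χ)]) ?_ ?_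
      · intro l hl
        rw [List.mem_singleton.1 hl]
        refine fixed_M ?_
        exact Or.inr (pm_ne hg P).symm
      · intro l hl
        exact fixed_dv_stage hg _ hps hl
  have h := key m le_rfl
  rw [Nat.sub_self, stage_zero] at h
  exact h

theorem Dl_zero {P : ZMod K} : (Dl G P 0 : Wd G K m) = Dl G (P + 1) (m + 1) := by
  unfold Dl
  refine List.map_congr_left ?_
  intro j _
  rw [if_pos (Nat.zero_le _), if_neg (by omega)]

/-- the move of the master -/
theorem step_mv (hg : Good act) {P : ZMod K} {χ : Bool}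
    {x : List (T ⊕ G.V)} {y u : Wd G K m} (H : Rw (op G act P χ) x y) (hu : u ∈ next G act P χ) :
    NStep G act e (W G P χ 0 y) (u ++ (Dl G (P + 1) (m + 1) ++ y)) := by
  refine ⟨Idx.mv P χ, ?_⟩
  rw [← Dl_zero]
  unfold W
  refine Rw.cons ?_ (Rw.append ?_ ?_)
  · unfold tbl
    dsimp only
    rw [if_pos rfl]
    exact hu
  · refine W_letter_fixed ?_
    intro l hl
    obtain ⟨j, rfl⟩ := mem_Dl.1 hl
    unfold tbl
    dsimp only
    rw [if_neg (by simp), if_neg]
    intro h
    have : j = 0 ∧ P + 1 = P := by simpa using h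
    exact hg.one_ne P this.2
  · refine W_letter_fixed ?_
    intro l hl
    obtain ⟨c, -, v, hv, hl'⟩ := H.letter hl
    rcases op_letter hv hl' with ⟨d', rfl⟩ | ⟨a, rfl⟩ | rfl
    · unfold tbl
      dsimp only
      rw [if_neg (by simp), if_neg (by simp)]
    · exact tbl_inl
    · exact F_fixed

/-- one round with rest -/
theorem round_rest (hg : Good act) {P : ZMod K} {χ χ' : Bool}
    (h : act P = none ∨ χ = false) (h' : χ' = true → act (P + 1) ≠ none)
    (x : List (T ⊕ G.V)) :
    NDer G act e (S G P χ x) (S G (P + 1) χ' x) := by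
  have H : Rw (op G act P χ) x (cls G P x : Wd G K m) := (rw_cls h).2 rfl
  refine (process hg H).trans (Relation.ReflTransGen.single ?_)
  have h1 := step_mv (e := e) hg H (u := [inr (NT.M (P + 1) χ')]) ?_
  · unfold S
    rw [add_sub_cancel_right]
    exact h1
  · unfold next
    rw [if_neg]
    · exact ⟨χ', h', rfl⟩
    · rintro ⟨h2, h3⟩
      rcases h with h | h
      · rw [h] at h2; cases h2
      · rw [h] at h3; cases h3

/-- one round with a table -/
theorem round_table (hg : Good act) {P : ZMod K} {τ : G.ι}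
    (h : act P = some (some τ)) {x x' : List (T ⊕ G.V)} (hx : Rw (G.table τ) x x') :
    NDer G act e (S G P true x) (S G (P + 1) false x') := by
  have H : Rw (op G act P true) x (cls G P x' : Wd G K m) := (rw_table h).2 ⟨x', hx, rfl⟩
  refine (process hg H).trans (Relation.ReflTransGen.single ?_)
  have h1 := step_mv (e := e) hg H (u := [inr (NT.M (P + 1) false)]) ?_
  · unfold S
    rw [add_sub_cancel_right]
    exact h1
  · unfold next
    rw [if_neg]
    · exact ⟨false, by simp, rfl⟩
    · rintro ⟨h2, h3⟩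
      rw [h] at h2
      cases h2

/-- many rounds with rest -/
theorem rounds [NeZero K] (hg : Good act) (P Q : ZMod K) (x : List (T ⊕ G.V)) :
    NDer G act e (S G P false x) (S G Q false x) := by
  have key : ∀ n : ℕ, NDer G act e (S G P false x) (S G (P + n) false x) := by
    intro n
    induction n with
    | zero => rw [Nat.cast_zero, add_zero]; exact Relation.ReflTransGen.refl
    | succ n ih =>
      refine ih.trans ?_
      rw [Nat.cast_succ, ← add_assoc]
      exact round_rest hg (Or.inr rfl) (by simp) x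
  have h := key (Q - P).val
  rw [ZMod.natCast_zmod_val, add_sub_cancel] at h
  exact h

/-- to the position `Q` with the choice `true` -/
theorem rounds' [NeZero K] (hg : Good act) (P : ZMod K) {Q : ZMod K}
    (hQ : act Q ≠ none) (x : List (T ⊕ G.V)) :
    NDer G act e (S G P false x) (S G Q true x) := by
  refine (rounds hg P (Q - 1) x).trans ?_
  have h := round_rest (e := e) hg (P := Q - 1) (χ := false) (χ' := true) (Or.inr rfl)
    (by intro _; rw [sub_add_cancel]; exact hQ) x
  rw [sub_add_cancel] at h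
  exact h

/-- simulation of the derivations -/
theorem simulate [NeZero K] (hg : Good act)
    (hall : ∀ τ : G.ι, ∃ P, act P = some (some τ)) {x : List (T ⊕ G.V)}
    (hx : G.Derives G.axm x) :
    NDer G act e (S G 0 false G.axm) (S G 0 false x) := by
  induction hx with
  | refl => exact Relation.ReflTransGen.refl
  | tail _ h ih =>
    obtain ⟨τ, hτ⟩ := h
    obtain ⟨P, hP⟩ := hall τ
    refine ih.trans ?_
    refine (rounds' hg 0 (Q := P) (by rw [hP]; simp) _).trans ?_
    exact (round_table hg hP hτ).trans (rounds hg _ _ _)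

/-- the tokens run without master -/
theorem tokens_round (hg : Good act) (P : ZMod K) (w : List T) :
    NDer G act e (Dl G P (m + 1) ++ w.map inl : Wd G K m)
      (Dl G (P + 1) (m + 1) ++ w.map inl : Wd G K m) := by
  have key : ∀ n ≤ m + 1, NDer G act e (Dl G P (m + 1) ++ w.map inl : Wd G K m)
      (Dl G P (m + 1 - n) ++ w.map inl : Wd G K m) := by
    intro n hn
    induction n with
    | zero => exact Relation.ReflTransGen.refl
    | succ n ih =>
      refine (ih (by omega)).trans (Relation.ReflTransGen.single ?_)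
      have hmn : m + 1 - n = (m + 1 - (n + 1)) + 1 := by omega
      rw [hmn]
      refine step_dv (by omega) (hg.one_ne P) (pre := []) ?_ ?_
      · intro l hl; cases hl
      · intro l hl
        obtain ⟨a, -, rfl⟩ := List.mem_map.1 hl
        exact tbl_inl
  have h := key (m + 1) le_rfl
  rw [Nat.sub_self, Dl_zero] at h
  exact h

theorem tokens_rounds [NeZero K] (hg : Good act) (P Q : ZMod K) (w : List T) :
    NDer G act e (Dl G P (m + 1) ++ w.map inl : Wd G K m)
      (Dl G Q (m + 1) ++ w.map inl : Wd G K m) := by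
  have key : ∀ n : ℕ, NDer G act e (Dl G P (m + 1) ++ w.map inl : Wd G K m)
      (Dl G (P + (n : ZMod K)) (m + 1) ++ w.map inl : Wd G K m) := by
    intro n
    induction n with
    | zero => rw [Nat.cast_zero, add_zero]; exact Relation.ReflTransGen.refl
    | succ n ih =>
      refine ih.trans ?_
      rw [Nat.cast_succ, ← add_assoc]
      exact tokens_round hg _ w
  have h := key (Q - P).val
  rw [ZMod.natCast_zmod_val, add_sub_cancel] at h
  exact h

/-- the tokens are erased -/
theorem erase (w : List T) : ∀ (js : List (Fin (m + 1))), js.Nodup →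
    NDer G act e
      ((js.map fun j => inr (NT.D j 0)) ++ w.map inl : Wd G K m) (w.map inl : Wd G K m)
  | [], _ => Relation.ReflTransGen.refl
  | j :: js, hjs => by
    rw [List.nodup_cons] at hjs
    refine Relation.ReflTransGen.head ?_ (erase w js hjs.2)
    refine ⟨Idx.er j, ?_⟩
    rw [List.map_cons, List.cons_append]
    have h1 : ([] : Wd G K m) ∈ tbl G act e (Idx.er j) (inr (NT.D j 0)) := by
      unfold tbl
      dsimp only
      rw [if_pos rfl]
      rfl
    have h2 : Rw (tbl G act e (Idx.er j)) ((js.map fun j => inr (NT.D j 0)) ++ w.map inl : Wd G K m)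
        ((js.map fun j => inr (NT.D j 0)) ++ w.map inl : Wd G K m) := ?_
    · have h3 := Rw.cons h1 h2
      rw [List.nil_append] at h3
      exact h3
    refine Rw.append ?_ ?_
    · refine W_letter_fixed ?_
      intro l hl
      obtain ⟨j', hj', rfl⟩ := List.mem_map.1 hl
      unfold tbl
      dsimp only
      rw [if_neg, if_neg]
      · rintro (h | h) <;> cases h
      · intro h
        have : j' = j := by simpa using h
        rw [this] at hj'
        exact hjs.1 hj'
    · refine W_letter_fixed ?_
      intro l hl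
      obtain ⟨a, -, rfl⟩ := List.mem_map.1 hl
      exact tbl_inl

theorem rw_final_of {P : ZMod K} (h : act P = some none) (w : List T) :
    Rw (op G (m := m) act P true) (w.map inl) (w.map inl) := by
  induction w with
  | nil => exact Rw.nil
  | cons a w ih =>
    have h1 : ([inl a] : Wd G K m) ∈ op G act P true (inl a) := by
      rw [op_final_inl h]; rfl
    exact Rw.cons h1 ih

theorem complete' [NeZero K] (hg : Good act)
    (hall : ∀ τ : G.ι, ∃ P, act P = some (some τ)) (hfin : ∃ P, act P = some none) {w : List T}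
    (hw : w ∈ G.lang) : NDer G act e (S G 0 false G.axm) (w.map inl : Wd G K m) := by
  obtain ⟨P, hP⟩ := hfin
  refine (simulate hg hall hw).trans ?_
  refine (rounds' hg 0 (Q := P) (by rw [hP]; simp) _).trans ?_
  refine (process hg (rw_final_of hP w)).trans ?_
  refine Relation.ReflTransGen.head (step_mv hg (rw_final_of hP w) (u := []) ?_) ?_
  · unfold next
    rw [if_pos ⟨hP, rfl⟩]
    rfl
  · rw [List.nil_append]
    refine (tokens_rounds hg (P + 1) 0 w).trans ?_
    have h := erase (G := G) (act := act) (e := e) w (List.finRange (m + 1))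
      (List.nodup_finRange _)
    have h2 : (Dl G 0 (m + 1) : Wd G K m) =
        (List.finRange (m + 1)).map fun j => inr (NT.D j 0) := by
      unfold Dl
      refine List.map_congr_left ?_
      intro j _
      rw [if_neg (by omega)]
    rw [h2]
    exact h

theorem complete [Finite T] [NeZero K] (hg : Good act)
    (hall : ∀ τ : G.ι, ∃ P, act P = some (some τ)) (hfin : ∃ P, act P = some none) :
    G.lang ⊆ (newSys G act e).lang :=
  fun _ hw => complete' hg hall hfin hw

end

end Pool.Agent.T6.H74.ET
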