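import Mathlib

/-!
# ET0L systems and the number of active letters of a table
-/

set_option autoImplicit false

namespace Pool.Agent.T6.H74.ET

universe u v w

/-- `Rw h x y`: the word `y` is obtained from the word `x` by replacing every occurrence of every
letter `c` by a word of the set `h c`, independently of the other occurrences. -/
inductive Rw {α : Type u} {β : Type v} (h : α → Set (List β)) : List α → List β → Prop
  | nil : Rw h [] []
  | cons {c : α} {u : List β} {x : List α} {y : List β} :
      u ∈ h c → Rw h x y → Rw h (c :: x) (u ++ y)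

/-- An ET0L system with terminal alphabet `T`. Its alphabet is `T ⊕ V`, where `V` is a finite set
of nonterminal letters. -/
structure ET0L (T : Type) where
  /-- the nonterminal letters -/
  V : Type
  /-- the (indices of the) tables -/
  ι : Type
  /-- there are finitely many nonterminals -/
  finV : Finite V
  /-- there are finitely many tables -/
  finι : Finite ι
  /-- there is at least one table -/
  neι : Nonempty ι
  /-- the tables -/
  table : ι → T ⊕ V → Set (List (T ⊕ V))
  /-- every letter has finitely many images -/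
  finite_table : ∀ i c, (table i c).Finite
  /-- every letter has at least one image -/
  nonempty_table : ∀ i c, (table i c).Nonempty
  /-- the axiom -/
  axm : List (T ⊕ V)
  /-- the axiom is not empty -/
  axm_ne : axm ≠ []

namespace ET0L

variable {T : Type}

/-- One derivation step. -/
def Step (G : ET0L T) (x y : List (T ⊕ G.V)) : Prop := ∃ i, Rw (G.table i) x y

/-- Derivations. -/
def Derives (G : ET0L T) : List (T ⊕ G.V) → List (T ⊕ G.V) → Prop := Relation.ReflTransGen G.Step

/-- The generated language: all terminal words derived from the axiom. -/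
def lang (G : ET0L T) : Set (List T) := {w | G.Derives G.axm (w.map Sum.inl)}

/-- The system is `k`-restricted: in every table, at most `k` letters `c` of the whole alphabet are
not rewritten only to themselves. -/
def Restricted (G : ET0L T) (k : ℕ) : Prop :=
  ∀ i, {c | G.table i c ≠ {[c]}}.encard ≤ k

end ET0L

/-- The family of the languages over `T` which are generated by `k`-restricted ET0L systems. -/
def Family (k : ℕ) (T : Type) : Set (Set (List T)) := {L | ∃ G : ET0L T, G.Restricted k ∧ G.lang = L}

/-! ### Basic facts on `Rw` -/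

section Rw

variable {α : Type u} {β : Type v} {γ : Type w}

theorem Rw.append {h : α → Set (List β)} {x : List α} {y : List β} (H : Rw h x y) :
    ∀ {x' : List α} {y' : List β}, Rw h x' y' → Rw h (x ++ x') (y ++ y') := by
  induction H with
  | nil => intro x' y' H'; exact H'
  | cons hu _ ih =>
    intro x' y' H'
    rw [List.cons_append, List.append_assoc]
    exact Rw.cons hu (ih H')

theorem Rw.append_inv {h : α → Set (List β)} : ∀ {x x' : List α} {y : List β},
    Rw h (x ++ x') y → ∃ y₁ y₂, y = y₁ ++ y₂ ∧ Rw h x y₁ ∧ Rw h x' y₂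
  | [], x', y, H => ⟨[], y, rfl, Rw.nil, H⟩
  | c :: x, x', y, H => by
    rw [List.cons_append] at H
    cases H with
    | cons hu H =>
      obtain ⟨y₁, y₂, rfl, h1, h2⟩ := Rw.append_inv H
      exact ⟨_, y₂, (List.append_assoc _ _ _).symm, Rw.cons hu h1, h2⟩

theorem Rw.nil_inv {h : α → Set (List β)} {y : List β} (H : Rw h [] y) : y = [] := by
  cases H; rfl

theorem Rw.cons_inv {h : α → Set (List β)} {c : α} {x : List α} {y : List β}
    (H : Rw h (c :: x) y) : ∃ u y', y = u ++ y' ∧ u ∈ h c ∧ Rw h x y' := by
  cases H with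
  | cons hu H => exact ⟨_, _, rfl, hu, H⟩

theorem Rw.singleton_inv {h : α → Set (List β)} {c : α} {y : List β}
    (H : Rw h [c] y) : y ∈ h c := by
  obtain ⟨u, y', rfl, hu, H'⟩ := H.cons_inv
  rw [H'.nil_inv, List.append_nil]
  exact hu

theorem Rw.singleton {h : α → Set (List β)} {c : α} {y : List β}
    (H : y ∈ h c) : Rw h [c] y := by
  have := Rw.cons H (Rw.nil (h := h))
  rwa [List.append_nil] at this

/-- Composition of substitutions. -/
theorem Rw.comp {g : α → Set (List β)} {h : β → Set (List γ)} {x : List α} {y : List β}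
    {z : List γ} (H : Rw g x y) (H' : Rw h y z) :
    Rw (fun c => {v | ∃ u ∈ g c, Rw h u v}) x z := by
  induction H generalizing z with
  | nil => rw [H'.nil_inv]; exact Rw.nil
  | cons hu _ ih =>
    obtain ⟨z₁, z₂, rfl, h1, h2⟩ := H'.append_inv
    exact Rw.cons ⟨_, hu, h1⟩ (ih h2)

/-- Change of the substitution. -/
theorem Rw.imp {h h' : α → Set (List β)} {x : List α} {y : List β} (H : Rw h x y)
    (Hi : ∀ c ∈ x, ∀ u ∈ h c, (∀ l ∈ u, l ∈ y) → u ∈ h' c) : Rw h' x y := by
  induction H with
  | nil => exact Rw.nil
  | cons hu _ ih =>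
    refine Rw.cons (Hi _ (List.mem_cons_self) _ hu fun l hl => List.mem_append_left _ hl) ?_
    exact ih fun c hc u hu' hl => Hi c (List.mem_cons_of_mem _ hc) u hu' fun l hl' =>
      List.mem_append_right _ (hl l hl')

/-- Deterministic substitutions by letters. -/
theorem Rw.map_iff {h : α → Set (List β)} {f : α → β} {x : List α} {y : List β}
    (hf : ∀ c ∈ x, h c = {[f c]}) : Rw h x y ↔ y = x.map f := by
  induction x generalizing y with
  | nil => exact ⟨fun H => H.nil_inv, fun H => by rw [H]; exact Rw.nil⟩
  | cons c x ih =>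
    have hx : ∀ c ∈ x, h c = {[f c]} := fun c' hc' => hf c' (List.mem_cons_of_mem _ hc')
    have hc := hf c List.mem_cons_self
    constructor
    · intro H
      obtain ⟨u, y', rfl, hu, H'⟩ := H.cons_inv
      rw [hc] at hu
      rw [hu, (ih hx).1 H']
      rfl
    · intro H
      rw [H]
      have h1 : [f c] ∈ h c := by rw [hc]; rfl
      exact Rw.cons h1 ((ih hx).2 rfl)

theorem Rw.id_iff {h : α → Set (List α)} {x y : List α}
    (hf : ∀ c ∈ x, h c = {[c]}) : Rw h x y ↔ y = x := by
  rw [Rw.map_iff (f := id) hf, List.map_id]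

theorem Rw.letter {h : α → Set (List β)} {x : List α} {y : List β} (H : Rw h x y) {l : β}
    (hl : l ∈ y) : ∃ c ∈ x, ∃ u ∈ h c, l ∈ u := by
  induction H with
  | nil => cases hl
  | cons hu _ ih =>
    rcases List.mem_append.1 hl with h1 | h1
    · exact ⟨_, List.mem_cons_self, _, hu, h1⟩
    · obtain ⟨c, hc, u, hu', hl'⟩ := ih h1
      exact ⟨c, List.mem_cons_of_mem _ hc, u, hu', hl'⟩

/-- If a letter `c` of `x` can only be replaced by `[l]`, then `l` occurs in `y`. -/
theorem Rw.mem_of {h : α → Set (List β)} {x : List α} {y : List β} (H : Rw h x y) {c : α}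
    (hc : c ∈ x) : ∃ u ∈ h c, ∀ l ∈ u, l ∈ y := by
  induction H with
  | nil => cases hc
  | cons hu _ ih =>
    rcases List.mem_cons.1 hc with rfl | h1
    · exact ⟨_, hu, fun l hl => List.mem_append_left _ hl⟩
    · obtain ⟨u, hu', hl'⟩ := ih h1
      exact ⟨u, hu', fun l hl => List.mem_append_right _ (hl' l hl)⟩

end Rw

end Pool.Agent.T6.H74.ET
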