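import Pool.Agent.T6.H74.ET.Complete

/-!
# Every ET0L language is generated by a 3-restricted ET0L system
-/

set_option autoImplicit false

namespace Pool.Agent.T6.H74.ET

open Sum

/-- the action of the positions for `t` tables -/
def actN {ι : Type} {t : ℕ} (f : ι ≃ Fin t) (v : ℕ) : Option (Option ι) :=
  if v % 2 = 1 then (if h : v / 2 < t then some (some (f.symm ⟨v / 2, h⟩)) else some none)
  else none

/-- the action of the positions for `t` tables -/
def actZ {ι : Type} {t : ℕ} (f : ι ≃ Fin t) (P : ZMod (2 * t + 3)) : Option (Option ι) :=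
  actN f P.val

theorem good_actZ {ι : Type} {t : ℕ} (f : ι ≃ Fin t) : Good (actZ f) where
  one_ne := by
    intro P h
    have h1 : (1 : ZMod (2 * t + 3)) = 0 := by
      have := congrArg (fun z => z - P) h
      simpa using this
    have h2 : ((1 : ℕ) : ZMod (2 * t + 3)) = 0 := by simpa using h1
    rw [ZMod.natCast_eq_zero_iff] at h2
    have := Nat.le_of_dvd (by norm_num) h2
    omega
  two_ne := by
    intro P h
    have h1 : (2 : ZMod (2 * t + 3)) = 0 := by
      have := congrArg (fun z => z - P + 1) h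
      simp only [add_sub_cancel_left] at this
      rw [show (2 : ZMod (2 * t + 3)) = 1 + 1 by norm_num, this]
      ring
    have h2 : ((2 : ℕ) : ZMod (2 * t + 3)) = 0 := by simpa using h1
    rw [ZMod.natCast_eq_zero_iff] at h2
    have := Nat.le_of_dvd (by norm_num) h2
    omega
  rest := by
    intro P h
    unfold actZ actN at h ⊢
    have hv := ZMod.val_lt P
    by_cases h1 : P.val % 2 = 1
    swap
    · rw [if_neg h1] at h
      exact absurd rfl h
    have h2 : (P + 1).val = P.val + 1 := by
      have h3 : (1 : ZMod (2 * t + 3)).val = 1 := by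
        have h4 := ZMod.val_natCast_of_lt (n := 2 * t + 3) (a := 1) (by omega)
        rwa [Nat.cast_one] at h4
      rw [ZMod.val_add_of_lt (by rw [h3]; omega), h3]
    rw [h2, if_neg (by omega)]
  zero := by
    unfold actZ actN
    rw [ZMod.val_zero]
    rfl
  neg := by
    unfold actZ actN
    have h : (-1 : ZMod (2 * t + 3)).val = 2 * t + 2 := ZMod.val_neg_one (2 * t + 2)
    rw [h, if_neg (by omega)]

theorem actZ_table {ι : Type} {t : ℕ} (f : ι ≃ Fin t) (τ : ι) :
    ∃ P, actZ f P = some (some τ) := by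
  refine ⟨((2 * (f τ).val + 1 : ℕ) : ZMod (2 * t + 3)), ?_⟩
  have hlt := (f τ).isLt
  unfold actZ actN
  rw [ZMod.val_natCast_of_lt (by omega), if_pos (by omega)]
  have h1 : (2 * (f τ).val + 1) / 2 = (f τ).val := by omega
  rw [dif_pos (by omega)]
  simp [h1]

theorem actZ_final {ι : Type} {t : ℕ} (f : ι ≃ Fin t) : ∃ P, actZ f P = some none := by
  refine ⟨((2 * t + 1 : ℕ) : ZMod (2 * t + 3)), ?_⟩
  unfold actZ actN
  rw [ZMod.val_natCast_of_lt (by omega), if_pos (by omega), dif_neg (by omega)]

/-- Every ET0L language is generated by a 3-restricted system. -/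
theorem exists_restricted {T : Type} [Finite T] (G : ET0L T) :
    ∃ G' : ET0L T, G'.Restricted 3 ∧ G'.lang = G.lang := by
  have := G.finV
  have := G.finι
  obtain ⟨m, ⟨e⟩⟩ := Finite.exists_equiv_fin (T ⊕ G.V)
  obtain ⟨t, ⟨f⟩⟩ := Finite.exists_equiv_fin G.ι
  refine ⟨newSys G (actZ f) e, newSys_restricted _ _ _, ?_⟩
  exact Set.Subset.antisymm (sound (good_actZ f))
    (complete (good_actZ f) (actZ_table f) (actZ_final f))

/-- The families collapse from `3` on. -/
theorem family_eq {T : Type} [Finite T] {k : ℕ} (hk : 3 ≤ k) : Family k T = Family (k + 1) T := by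
  ext L
  constructor
  · rintro ⟨G, hG, rfl⟩
    exact ⟨G, fun i => (hG i).trans (by exact_mod_cast Nat.le_succ k), rfl⟩
  · rintro ⟨G, -, rfl⟩
    obtain ⟨G', hG', h⟩ := exists_restricted G
    exact ⟨G', fun i => (hG' i).trans (by exact_mod_cast hk), h⟩

end Pool.Agent.T6.H74.ET
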