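import Pool.Agent.T6.H74.ET.Two

/-!
# The language `a^n b^n c^n` is not generated by a 1-restricted ET0L system
-/

set_option autoImplicit false

namespace Pool.Agent.T6.H74.ET

open Sum

section

variable {T : Type} (G : ET0L T)

/-- the words derived from a letter by a list of tables -/
def Yl : List G.ι → T ⊕ G.V → Set (List (T ⊕ G.V))
  | [], c => {[c]}
  | i :: s, c => {v | ∃ u ∈ G.table i c, Rw (Yl s) u v}

variable {G}

theorem yl_nil {x y : List (T ⊕ G.V)} : Rw (Yl G []) x y ↔ y = x :=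
  Rw.id_iff fun _ _ => rfl

theorem yl_cons {i : G.ι} {s : List G.ι} {x y : List (T ⊕ G.V)} :
    Rw (Yl G (i :: s)) x y ↔ ∃ z, Rw (G.table i) x z ∧ Rw (Yl G s) z y := by
  constructor
  · intro h
    induction h with
    | nil => exact ⟨[], Rw.nil, Rw.nil⟩
    | cons hu _ ih =>
      obtain ⟨z, h1, h2⟩ := ih
      obtain ⟨v, hv, h3⟩ := hu
      exact ⟨v ++ z, Rw.cons hv h1, h3.append h2⟩
  · rintro ⟨z, h1, h2⟩
    exact h1.comp h2

theorem yl_append {s s' : List G.ι} {x y : List (T ⊕ G.V)} :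
    Rw (Yl G (s ++ s')) x y ↔ ∃ z, Rw (Yl G s) x z ∧ Rw (Yl G s') z y := by
  induction s generalizing x with
  | nil =>
    constructor
    · intro h; exact ⟨x, yl_nil.2 rfl, h⟩
    · rintro ⟨z, h1, h2⟩
      rw [yl_nil.1 h1] at h2
      exact h2
  | cons i s ih =>
    rw [List.cons_append, yl_cons]
    constructor
    · rintro ⟨z, h1, h2⟩
      obtain ⟨z', h3, h4⟩ := ih.1 h2
      exact ⟨z', yl_cons.2 ⟨z, h1, h3⟩, h4⟩
    · rintro ⟨z', h1, h2⟩
      obtain ⟨z, h3, h4⟩ := yl_cons.1 h1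
      exact ⟨z, h3, ih.2 ⟨z', h4, h2⟩⟩

theorem derives_iff {x y : List (T ⊕ G.V)} : G.Derives x y ↔ ∃ s, Rw (Yl G s) x y := by
  constructor
  · intro h
    induction h with
    | refl => exact ⟨[], yl_nil.2 rfl⟩
    | tail _ h ih =>
      obtain ⟨s, hs⟩ := ih
      obtain ⟨i, hi⟩ := h
      exact ⟨s ++ [i], yl_append.2 ⟨_, hs, yl_cons.2 ⟨_, hi, yl_nil.2 rfl⟩⟩⟩
  · rintro ⟨s, hs⟩
    induction s generalizing x with
    | nil => rw [yl_nil.1 hs]; exact Relation.ReflTransGen.refl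
    | cons i s ih =>
      obtain ⟨z, h1, h2⟩ := yl_cons.1 hs
      exact Relation.ReflTransGen.head ⟨i, h1⟩ (ih h2)

/-- tables which do not change a letter can be dropped -/
theorem yl_skip {X : G.ι → T ⊕ G.V} (hX : ∀ i c, c ≠ X i → G.table i c = {[c]})
    {s s' : List G.ι} {c : T ⊕ G.V} (hs : ∀ i ∈ s, X i ≠ c) : Yl G (s ++ s') c = Yl G s' c := by
  induction s with
  | nil => rfl
  | cons i s ih =>
    rw [List.cons_append]
    have h1 := hX i c (hs i List.mem_cons_self).symm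
    ext v
    show (∃ u ∈ G.table i c, Rw (Yl G (s ++ s')) u v) ↔ _
    rw [h1]
    constructor
    · rintro ⟨u, hu, h2⟩
      rw [hu] at h2
      rw [← ih fun i hi => hs i (List.mem_cons_of_mem _ hi)]
      exact h2.singleton_inv
    · intro h2
      refine ⟨[c], rfl, ?_⟩
      rw [← ih fun i hi => hs i (List.mem_cons_of_mem _ hi)] at h2
      exact Rw.singleton h2

open Classical in
/-- the number of occurrences of a letter -/
noncomputable def cnt {α : Type*} (t : α) (u : List α) : ℕ := u.countP fun l => decide (l = t)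

theorem cnt_append {α : Type*} (t : α) (u v : List α) : cnt t (u ++ v) = cnt t u + cnt t v :=
  List.countP_append

theorem cnt_pos {α : Type*} {t : α} {u : List α} : 0 < cnt t u ↔ t ∈ u := by
  unfold cnt
  rw [List.countP_pos_iff]
  constructor
  · rintro ⟨a, ha, h⟩
    have h2 : a = t := by simpa using h
    rw [← h2]
    exact ha
  · intro h
    exact ⟨t, h, by simp⟩

theorem cnt_eq_zero {α : Type*} {t : α} {u : List α} : cnt t u = 0 ↔ t ∉ u := by
  rw [← cnt_pos]
  omega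

theorem cnt_replicate {α : Type*} (t : α) (n : ℕ) : cnt t (List.replicate n t) = n := by
  unfold cnt
  rw [List.countP_replicate]
  simp

theorem cnt_replicate_ne {α : Type*} {t t' : α} (h : t' ≠ t) (n : ℕ) :
    cnt t (List.replicate n t') = 0 := by
  unfold cnt
  rw [List.countP_replicate]
  simp [h]

theorem cnt_cons_self {α : Type*} (t : α) (u : List α) : cnt t (t :: u) = cnt t u + 1 := by
  unfold cnt
  rw [List.countP_cons]
  simp

theorem cnt_cons_ne {α : Type*} {t t' : α} (h : t' ≠ t) (u : List α) :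
    cnt t (t' :: u) = cnt t u := by
  unfold cnt
  rw [List.countP_cons]
  simp [h]

theorem cnt_le {α : Type*} (t : α) (u : List α) : cnt t u ≤ u.length :=
  List.countP_le_length

/-- the splitting of a derivation at a letter -/
theorem Rw.split {α β : Type*} {h : α → Set (List β)} {x : List α} {w : List β} (H : Rw h x w)
    {c : α} (hc : c ∈ x) : ∃ x₁ x₂ w₁ y w₂, x = x₁ ++ c :: x₂ ∧ w = w₁ ++ y ++ w₂ ∧
      Rw h x₁ w₁ ∧ y ∈ h c ∧ Rw h x₂ w₂ := by
  obtain ⟨x₁, x₂, rfl⟩ := List.append_of_mem hc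
  obtain ⟨w₁, w', rfl, h1, h2⟩ := H.append_inv
  obtain ⟨y, w₂, rfl, h3, h4⟩ := h2.cons_inv
  exact ⟨x₁, x₂, w₁, y, w₂, rfl, (List.append_assoc _ _ _).symm, h1, h3, h4⟩

end

section

variable {G : ET0L (Fin 3)}

/-- the words `a^n b^n c^n` -/
def W3 (n : ℕ) : List (Fin 3) := List.replicate n 0 ++ List.replicate n 1 ++ List.replicate n 2

/-- a factor which contains the first and the last terminal -/
def Span (u : List (Fin 3 ⊕ G.V)) : Prop := inl 0 ∈ u ∧ inl 2 ∈ u

/-- the non-spanning derived words -/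
def NS (s : List G.ι) (c : Fin 3 ⊕ G.V) : Set (List (Fin 3 ⊕ G.V)) := {u | u ∈ Yl G s c ∧ ¬ Span u}

/-- the rank of a letter -/
def rk : Fin 3 ⊕ G.V → ℕ
  | inl a => a.val
  | inr _ => 3

theorem sorted_W3 (n : ℕ) :
    ((W3 n).map inl : List (Fin 3 ⊕ G.V)).Pairwise fun x y => rk x ≤ rk y := by
  unfold W3
  rw [List.map_append, List.map_append, List.map_replicate, List.map_replicate,
    List.map_replicate, List.pairwise_append, List.pairwise_append]
  refine ⟨⟨?_, ?_, ?_⟩, ?_, ?_⟩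
  · exact List.pairwise_replicate.2 (Or.inr le_rfl)
  · exact List.pairwise_replicate.2 (Or.inr le_rfl)
  · intro a ha b hb
    rw [List.eq_of_mem_replicate ha, List.eq_of_mem_replicate hb]
    simp [rk]
  · exact List.pairwise_replicate.2 (Or.inr le_rfl)
  · intro a ha b hb
    rw [List.eq_of_mem_replicate hb]
    rcases List.mem_append.1 ha with ha | ha
    · rw [List.eq_of_mem_replicate ha]
      simp [rk]
    · rw [List.eq_of_mem_replicate ha]
      simp [rk]

theorem count_W3 (n : ℕ) (t : Fin 3) :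
    cnt (inl t) ((W3 n).map inl : List (Fin 3 ⊕ G.V)) = n := by
  unfold W3
  rw [List.map_append, List.map_append, List.map_replicate, List.map_replicate,
    List.map_replicate, cnt_append, cnt_append]
  fin_cases t
  · rw [show ((⟨0, by norm_num⟩ : Fin 3)) = 0 from rfl]
    rw [cnt_replicate, cnt_replicate_ne (by simp), cnt_replicate_ne (by simp)]
    rfl
  · rw [show ((⟨1, by norm_num⟩ : Fin 3)) = 1 from rfl]
    rw [cnt_replicate, cnt_replicate_ne (by simp), cnt_replicate_ne (by simp)]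
    omega
  · rw [show ((⟨2, by norm_num⟩ : Fin 3)) = 2 from rfl]
    rw [cnt_replicate, cnt_replicate_ne (by simp), cnt_replicate_ne (by simp)]
    omega

theorem count_span {n : ℕ} {w₁ u w₂ : List (Fin 3 ⊕ G.V)}
    (h : (W3 n).map inl = w₁ ++ u ++ w₂) (hu : Span u) : cnt (inl 1) u = n := by
  have h1 := sorted_W3 (G := G) n
  rw [h, List.pairwise_append, List.pairwise_append] at h1
  obtain ⟨⟨-, -, h2⟩, -, h3⟩ := h1
  have h4 := count_W3 (G := G) n 1
  rw [h, cnt_append, cnt_append] at h4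
  have h5 : cnt (inl 1) w₁ = 0 := by
    rw [cnt_eq_zero]
    intro h6
    have := h2 _ h6 _ hu.1
    simp [rk] at this
  have h6 : cnt (inl 1) w₂ = 0 := by
    rw [cnt_eq_zero]
    intro h6
    have := h3 _ (List.mem_append_right _ hu.2) _ h6
    simp [rk] at this
  omega

theorem not_span_left {n : ℕ} {w₁ u w₂ : List (Fin 3 ⊕ G.V)}
    (h : (W3 n).map inl = w₁ ++ u ++ w₂) (hu : Span u) : ¬ Span w₁ ∧ ¬ Span w₂ := by
  have h1 := sorted_W3 (G := G) n
  rw [h, List.pairwise_append, List.pairwise_append] at h1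
  obtain ⟨⟨-, -, h2⟩, -, h3⟩ := h1
  constructor
  · intro h4
    have := h2 _ h4.2 _ hu.1
    simp [rk] at this
  · intro h4
    have := h3 _ (List.mem_append_right _ hu.2) _ h4.1
    simp [rk] at this

theorem Span.mono {u v : List (Fin 3 ⊕ G.V)} (h : Span u) (huv : ∀ l ∈ u, l ∈ v) : Span v :=
  ⟨huv _ h.1, huv _ h.2⟩

theorem ns_of {s : List G.ι} {x w : List (Fin 3 ⊕ G.V)} (h : Rw (Yl G s) x w)
    (hw : ¬ Span w) : Rw (NS s) x w :=
  h.imp fun _ _ _ hu hl => ⟨hu, fun h' => hw (h'.mono hl)⟩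

theorem ns_yl {s : List G.ι} {x w : List (Fin 3 ⊕ G.V)} (h : Rw (NS s) x w) :
    Rw (Yl G s) x w :=
  h.imp fun _ _ _ hu _ => hu.1

theorem ns_cons {i : G.ι} {s : List G.ι} {x w : List (Fin 3 ⊕ G.V)}
    (h : Rw (NS (i :: s)) x w) : ∃ z, Rw (G.table i) x z ∧ Rw (NS s) z w := by
  induction h with
  | nil => exact ⟨[], Rw.nil, Rw.nil⟩
  | cons hu _ ih =>
    obtain ⟨z, h1, h2⟩ := ih
    obtain ⟨⟨v, hv, h3⟩, h4⟩ := hu
    exact ⟨v ++ z, Rw.cons hv h1, (ns_of h3 h4).append h2⟩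

variable {X : G.ι → Fin 3 ⊕ G.V}

/-- the hypotheses on the system -/
structure Hyp (G : ET0L (Fin 3)) (X : G.ι → Fin 3 ⊕ G.V) : Prop where
  fix : ∀ i c, c ≠ X i → G.table i c = {[c]}
  snd : ∀ s u, Rw (Yl G s) G.axm (u.map inl) → ∃ n, u = W3 n

/-- a shortest derivation -/
def Min (G : ET0L (Fin 3)) (n : ℕ) (s : List G.ι) : Prop :=
  ∀ s', Rw (Yl G s') G.axm ((W3 n).map inl) → s.length ≤ s'.length

theorem Hyp.mem (H : Hyp G X) {n : ℕ} {s₁ s₃ : List G.ι} {i : G.ι}
    (hmin : Min G n (s₁ ++ i :: s₃)) {x : List (Fin 3 ⊕ G.V)} (h1 : Rw (Yl G s₁) G.axm x)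
    (h2 : Rw (Yl G (i :: s₃)) x ((W3 n).map inl)) : X i ∈ x := by
  by_contra hx
  obtain ⟨z, h3, h4⟩ := yl_cons.1 h2
  have h5 : z = x := by
    refine (Rw.id_iff ?_).1 h3
    intro c hc
    exact H.fix i c fun h => hx (by rw [← h]; exact hc)
  rw [h5] at h4
  have := hmin (s₁ ++ s₃) (yl_append.2 ⟨x, h1, h4⟩)
  simp at this

theorem term_map {u : List (Fin 3 ⊕ G.V)} (h : ∀ l ∈ u, ∃ a, l = inl a) :
    ∃ w : List (Fin 3), u = w.map inl := by
  induction u with
  | nil => exact ⟨[], rfl⟩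
  | cons l u ih =>
    obtain ⟨w, hw⟩ := ih fun l hl => h l (List.mem_cons_of_mem _ hl)
    obtain ⟨a, ha⟩ := h l List.mem_cons_self
    exact ⟨a :: w, by rw [hw, ha]; rfl⟩

open Classical in
theorem count_flat (ps : List ((Fin 3 ⊕ G.V) × List (Fin 3 ⊕ G.V))) (A t : Fin 3 ⊕ G.V)
    (y z : List (Fin 3 ⊕ G.V)) :
    cnt t (ps.flatMap fun p => if p.1 = A then z else p.2) +
      cnt A (ps.map Prod.fst) * cnt t y =
    cnt t (ps.flatMap fun p => if p.1 = A then y else p.2) +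
      cnt A (ps.map Prod.fst) * cnt t z := by
  induction ps with
  | nil => simp [cnt]
  | cons p ps ih =>
    rw [List.flatMap_cons, List.flatMap_cons, cnt_append, cnt_append, List.map_cons]
    by_cases h : p.1 = A
    · rw [if_pos h, if_pos h, h, cnt_cons_self, add_mul, add_mul]
      omega
    · rw [if_neg h, if_neg h, cnt_cons_ne h]
      omega

open Classical in
theorem Hyp.deletion (H : Hyp G X) {n : ℕ} {s₁ s₃ : List G.ι} {i : G.ι}
    (hmin : Min G n (s₁ ++ i :: s₃)) {x : List (Fin 3 ⊕ G.V)} (h1 : Rw (Yl G s₁) G.axm x)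
    (h2 : Rw (NS (i :: s₃)) x ((W3 n).map inl)) : X i ∉ s₃.map X := by
  intro hmem
  have hA := H.mem hmin h1 (ns_yl h2)
  obtain ⟨A, hAdef⟩ : ∃ A, A = X i := ⟨_, rfl⟩
  rw [← hAdef] at hA hmem
  -- the next table with the same active letter
  obtain ⟨as, bs, h3, h4⟩ := List.eq_append_cons_of_mem hmem
  obtain ⟨s₄, s', rfl, h5, h6⟩ := List.map_eq_append_iff.1 h3
  obtain ⟨j, s₅, rfl, h7, h8⟩ := List.map_eq_cons_iff.1 h6
  have h9 : ∀ i' ∈ s₄, X i' ≠ A := by
    intro i' hi' h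
    refine h4 ?_
    rw [← h5, ← h]
    exact List.mem_map.2 ⟨i', hi', rfl⟩
  -- the new derived word of the letter
  obtain ⟨z, hz, hz'⟩ : ∃ z, z ∈ Yl G (j :: s₅) A ∧ ∃ u v, (W3 n).map inl = u ++ z ++ v := by
    have h10 : Rw (Yl G ((i :: s₄) ++ (j :: s₅))) x ((W3 n).map inl) := ns_yl h2
    obtain ⟨x'', h11, h12⟩ := yl_append.1 h10
    have hmin' : Min G n ((s₁ ++ i :: s₄) ++ j :: s₅) := by
      rw [List.append_assoc, List.cons_append]
      exact hmin
    have h13 := H.mem hmin' (yl_append.2 ⟨x, h1, h11⟩) h12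
    rw [h7] at h13
    obtain ⟨_, _, w₁, y, w₂, _, h14, _, h15, _⟩ := h12.split h13
    exact ⟨y, h15, w₁, w₂, h14⟩
  have hz3 : z ∈ Yl G (s₄ ++ j :: s₅) A := by
    rw [yl_skip H.fix h9]
    exact hz
  -- the pairs
  obtain ⟨ps, hp1, hp2, hp3⟩ := h2.exists_pairs
  have hA' : A ∈ ps.map Prod.fst := by rw [hp1]; exact hA
  obtain ⟨p₀, hp₀, hp₀A⟩ := List.mem_map.1 hA'
  obtain ⟨y, hy⟩ : ∃ y, y = p₀.2 := ⟨_, rfl⟩
  have hyns : ¬ Span y := by rw [hy]; exact (hp3 _ hp₀).2
  have hterm : ∀ p ∈ ps, ∀ l ∈ p.2, ∃ a, l = inl a := by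
    intro p hp l hl
    have : l ∈ (W3 n).map (inl : Fin 3 → Fin 3 ⊕ G.V) := by
      rw [← hp2]
      exact List.mem_flatMap.2 ⟨p, hp, hl⟩
    obtain ⟨a, -, ha⟩ := List.mem_map.1 this
    exact ⟨a, ha.symm⟩
  have hzterm : ∀ l ∈ z, ∃ a, l = inl a := by
    intro l hl
    obtain ⟨u, v, huv⟩ := hz'
    have : l ∈ (W3 n).map (inl : Fin 3 → Fin 3 ⊕ G.V) := by
      rw [huv]
      exact List.mem_append_left _ (List.mem_append_right _ hl)
    obtain ⟨a, -, ha⟩ := List.mem_map.1 this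
    exact ⟨a, ha.symm⟩
  -- non-spanning exchange
  have harith : ∀ (k a₀ a₂ b₀ b₂ m' : ℕ), (a₀ = 0 ∨ a₂ = 0) → (b₀ = 0 ∨ b₂ = 0) →
      m' + k * a₀ = n + k * b₀ → m' + k * a₂ = n + k * b₂ → m' = n := by
    intro k a₀ a₂ b₀ b₂ m' ha hb e1 e2
    have p1 : 0 ≤ k * a₀ := Nat.zero_le _
    rcases ha with rfl | rfl <;> rcases hb with rfl | rfl <;> simp only [mul_zero] at e1 e2 <;>
      omega
  have hns : ∀ u : List (Fin 3 ⊕ G.V), ¬ Span u → cnt (inl 0) u = 0 ∨ cnt (inl 2) u = 0 := by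
    intro u hu
    by_contra hc
    rw [not_or] at hc
    exact hu ⟨cnt_pos.1 (Nat.pos_of_ne_zero hc.1), cnt_pos.1 (Nat.pos_of_ne_zero hc.2)⟩
  have hall : ∀ p ∈ ps, p.1 = A → p.2 = y := by
    intro p hp hpA
    obtain ⟨l₁, l₂, rfl⟩ := List.append_of_mem hp
    have h10 : Rw (Yl G (i :: (s₄ ++ j :: s₅))) x
        (l₁.flatMap Prod.snd ++ y ++ l₂.flatMap Prod.snd) := by
      rw [← hp1, List.map_append, List.map_cons]
      have hl₁ : ∀ q ∈ l₁, q.2 ∈ NS (i :: (s₄ ++ j :: s₅)) q.1 := fun q hq =>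
        hp3 q (List.mem_append_left _ hq)
      have hl₂ : ∀ q ∈ l₂, q.2 ∈ NS (i :: (s₄ ++ j :: s₅)) q.1 := fun q hq =>
        hp3 q (List.mem_append_right _ (List.mem_cons_of_mem _ hq))
      have hr : ∀ l : List ((Fin 3 ⊕ G.V) × List (Fin 3 ⊕ G.V)),
          (∀ q ∈ l, q.2 ∈ NS (i :: (s₄ ++ j :: s₅)) q.1) →
          Rw (Yl G (i :: (s₄ ++ j :: s₅))) (l.map Prod.fst) (l.flatMap Prod.snd) := by
        intro l hl
        have := Rw.of_pairs (h := Yl G (i :: (s₄ ++ j :: s₅))) (f := fun q => [q.1])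
          (g := Prod.snd) (ps := l) fun q hq => Rw.singleton (hl q hq).1
        rwa [← List.map_eq_flatMap] at this
      rw [List.append_assoc]
      refine (hr l₁ hl₁).append (Rw.cons ?_ (hr l₂ hl₂))
      rw [hpA, ← hp₀A, hy]
      exact (hp3 _ hp₀).1
    obtain ⟨w', hw'⟩ := term_map (G := G) (u := l₁.flatMap Prod.snd ++ y ++ l₂.flatMap Prod.snd) (by
      intro l hl
      rcases List.mem_append.1 hl with hl | hl
      · rcases List.mem_append.1 hl with hl | hl
        · obtain ⟨q, hq, hlq⟩ := List.mem_flatMap.1 hl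
          exact hterm q (List.mem_append_left _ hq) l hlq
        · rw [hy] at hl
          exact hterm _ hp₀ l hl
      · obtain ⟨q, hq, hlq⟩ := List.mem_flatMap.1 hl
        exact hterm q (List.mem_append_right _ (List.mem_cons_of_mem _ hq)) l hlq)
    obtain ⟨m', rfl⟩ := H.snd (s₁ ++ i :: (s₄ ++ j :: s₅)) w' (by
      rw [← hw']
      exact yl_append.2 ⟨x, h1, h10⟩)
    have hWn : (W3 n).map inl = l₁.flatMap Prod.snd ++ p.2 ++ l₂.flatMap Prod.snd := by
      rw [← hp2, List.flatMap_append, List.flatMap_cons, List.append_assoc]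
    have hcnt : ∀ t : Fin 3, m' + 1 * cnt (inl t) p.2 = n + 1 * cnt (inl t) y := by
      intro t
      have e1 := count_W3 (G := G) n t
      have e2 := count_W3 (G := G) m' t
      rw [hWn, cnt_append, cnt_append] at e1
      rw [← hw', cnt_append, cnt_append] at e2
      omega
    have hmn : m' = n := harith 1 _ _ _ _ m' (hns _ (hp3 p hp).2) (hns _ hyns) (hcnt 0) (hcnt 2)
    rw [hmn, hWn] at hw'
    have h11 := List.append_cancel_right hw'
    exact (List.append_cancel_left h11).symm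
  -- the new word
  have hw : (W3 n).map inl = ps.flatMap fun p => if p.1 = A then y else p.2 := by
    rw [← hp2, List.flatMap_def, List.flatMap_def]
    congr 1
    refine List.map_congr_left ?_
    intro p hp
    by_cases hpA : p.1 = A
    · rw [if_pos hpA, hall p hp hpA]
    · rw [if_neg hpA]
  obtain ⟨w', hw'⟩ := term_map (G := G) (u := ps.flatMap fun p => if p.1 = A then z else p.2) (by
    intro l hl
    obtain ⟨q, hq, hlq⟩ := List.mem_flatMap.1 hl
    split_ifs at hlq with h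
    · exact hzterm l hlq
    · exact hterm q hq l hlq)
  have hder : Rw (Yl G (s₄ ++ j :: s₅)) x (w'.map inl) := by
    rw [← hw', ← hp1]
    have := Rw.of_pairs (h := Yl G (s₄ ++ j :: s₅)) (f := fun q => [q.1])
      (g := fun p : (Fin 3 ⊕ G.V) × List (Fin 3 ⊕ G.V) => if p.1 = A then z else p.2)
      (ps := ps) fun q hq => ?_
    · rwa [← List.map_eq_flatMap] at this
    · refine Rw.singleton ?_
      by_cases hqA : q.1 = A
      · rw [if_pos hqA, hqA]
        exact hz3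
      · rw [if_neg hqA]
        have h10 := (hp3 q hq).1
        have h11 := yl_skip (s := [i]) (s' := s₄ ++ j :: s₅) (c := q.1) H.fix (by
          intro i' hi'
          rw [List.mem_singleton.1 hi', ← hAdef]
          exact fun h => hqA h.symm)
        rw [List.singleton_append] at h11
        rw [← h11]
        exact h10
  obtain ⟨m', rfl⟩ := H.snd (s₁ ++ (s₄ ++ j :: s₅)) w' (yl_append.2 ⟨x, h1, hder⟩)
  have hcnt : ∀ t : Fin 3, m' + cnt A (ps.map Prod.fst) * cnt (inl t) y =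
      n + cnt A (ps.map Prod.fst) * cnt (inl t) z := by
    intro t
    have e1 := count_W3 (G := G) n t
    have e2 := count_W3 (G := G) m' t
    have e3 := count_flat ps A (inl t) y z
    rw [← hw, hw', e1, e2] at e3
    exact e3
  have hmn : m' = n := by
    by_cases hsz : Span z
    · obtain ⟨u, v, huv⟩ := hz'
      have e1 := count_span huv hsz
      obtain ⟨l₁, l₂, hl⟩ := List.append_of_mem hp₀
      have e2 : (W3 m').map inl = (l₁.flatMap fun p => if p.1 = A then z else p.2) ++ z ++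
          (l₂.flatMap fun p => if p.1 = A then z else p.2) := by
        rw [← hw', hl, List.flatMap_append, List.flatMap_cons, if_pos hp₀A, List.append_assoc]
      have e3 := count_span e2 hsz
      omega
    · exact harith _ _ _ _ _ m' (hns _ hyns) (hns _ hsz) (hcnt 0) (hcnt 2)
  rw [hmn] at hder
  have := hmin (s₁ ++ (s₄ ++ j :: s₅)) (yl_append.2 ⟨x, h1, hder⟩)
  simp at this

theorem Hyp.nodup (H : Hyp G X) {n : ℕ} : ∀ (s₂ s₁ : List G.ι) (x : List (Fin 3 ⊕ G.V)),
    Min G n (s₁ ++ s₂) → Rw (Yl G s₁) G.axm x → Rw (NS s₂) x ((W3 n).map inl) →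
    (s₂.map X).Nodup
  | [], _, _, _, _, _ => List.nodup_nil
  | i :: s₃, s₁, x, hmin, h1, h2 => by
    rw [List.map_cons, List.nodup_cons]
    refine ⟨H.deletion hmin h1 h2, ?_⟩
    obtain ⟨z, h3, h4⟩ := ns_cons h2
    refine H.nodup s₃ (s₁ ++ [i]) z ?_ ?_ h4
    · rw [List.append_assoc]
      exact hmin
    · exact yl_append.2 ⟨x, h1, yl_cons.2 ⟨z, h3, yl_nil.2 rfl⟩⟩

theorem length_rw {ρ : ℕ} {h : Fin 3 ⊕ G.V → Set (List (Fin 3 ⊕ G.V))}
    (hρ : ∀ c, ∀ u ∈ h c, u.length ≤ ρ) {x y : List (Fin 3 ⊕ G.V)} (H : Rw h x y) :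
    y.length ≤ x.length * ρ := by
  induction H with
  | nil => simp
  | cons hu _ ih =>
    rw [List.length_append, List.length_cons, add_mul, one_mul]
    have := hρ _ _ hu
    omega

theorem length_yl {ρ : ℕ} (hρ : ∀ i c, ∀ u ∈ G.table i c, u.length ≤ ρ) :
    ∀ (s : List G.ι) (x y : List (Fin 3 ⊕ G.V)), Rw (Yl G s) x y →
      y.length ≤ x.length * ρ ^ s.length
  | [], x, y, h => by rw [yl_nil.1 h]; simp
  | i :: s, x, y, h => by
    obtain ⟨z, h1, h2⟩ := yl_cons.1 h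
    have h3 := length_yl hρ s z y h2
    have h4 := length_rw (hρ i) h1
    refine h3.trans ?_
    rw [List.length_cons, pow_succ', ← mul_assoc]
    exact Nat.mul_le_mul_right _ h4

theorem exists_rho (G : ET0L (Fin 3)) : ∃ ρ : ℕ, 1 ≤ ρ ∧ ∀ i c, ∀ u ∈ G.table i c,
    u.length ≤ ρ := by
  have := G.finV
  have := G.finι
  have hfin : (⋃ i, ⋃ c, G.table i c).Finite :=
    Set.finite_iUnion fun i => Set.finite_iUnion fun c => G.finite_table i c
  obtain ⟨ρ, hρ⟩ := (hfin.image List.length).bddAbove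
  refine ⟨ρ + 1, by omega, fun i c u hu => ?_⟩
  have h1 : u.length ≤ ρ := hρ ⟨u, Set.mem_iUnion.2 ⟨i, Set.mem_iUnion.2 ⟨c, hu⟩⟩, rfl⟩
  omega

/-- If no letter of `x` has a spanning image, then the derivation is non-spanning. -/
theorem ns_of_not_exists {s : List G.ι} {x y : List (Fin 3 ⊕ G.V)} (h : Rw (Yl G s) x y)
    (hne : ¬ ∃ x₁ c x₂ y₁ y' y₂, x = x₁ ++ c :: x₂ ∧ y = y₁ ++ y' ++ y₂ ∧ Rw (Yl G s) x₁ y₁ ∧
      y' ∈ Yl G s c ∧ Rw (Yl G s) x₂ y₂ ∧ Span y') : Rw (NS s) x y := by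
  induction h with
  | nil => exact Rw.nil
  | @cons c u x y hu hxy ih =>
    refine Rw.cons ⟨hu, fun hs => hne ⟨[], c, x, [], u, y, rfl, rfl, Rw.nil, hu, hxy, hs⟩⟩ ?_
    refine ih ?_
    rintro ⟨x₁, c', x₂, y₁, y', y₂, rfl, rfl, h1, h2, h3, h4⟩
    exact hne ⟨c :: x₁, c', x₂, u ++ y₁, y', y₂, rfl, by simp, Rw.cons hu h1, h2, h3, h4⟩

theorem Hyp.bound (H : Hyp G X) [Finite G.V] {n ρ : ℕ} (hρ1 : 1 ≤ ρ)
    (hρ : ∀ i c, ∀ u ∈ G.table i c, u.length ≤ ρ) :
    ∀ (s₂ s₁ : List G.ι) (x₁ : List (Fin 3 ⊕ G.V)) (S : Fin 3 ⊕ G.V)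
      (x₂ w₁ y w₂ : List (Fin 3 ⊕ G.V)),
      Min G n (s₁ ++ s₂) → Rw (Yl G s₁) G.axm (x₁ ++ S :: x₂) → Rw (Yl G s₂) x₁ w₁ →
      y ∈ Yl G s₂ S → Rw (Yl G s₂) x₂ w₂ → (W3 n).map inl = w₁ ++ y ++ w₂ → Span y →
      n ≤ ρ * ρ ^ Nat.card (Fin 3 ⊕ G.V)
  | [], s₁, x₁, S, x₂, w₁, y, w₂, hmin, h1, h2, h3, h4, h5, h6 => by
    exfalso
    have h7 : y = [S] := h3
    rw [h7] at h6
    have h8 := List.mem_singleton.1 h6.1
    have h9 := List.mem_singleton.1 h6.2
    rw [← h8] at h9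
    have h10 : (2 : Fin 3) = 0 := inl.inj h9
    exact absurd h10 (by decide)
  | i :: s₃, s₁, x₁, S, x₂, w₁, y, w₂, hmin, h1, h2, h3, h4, h5, h6 => by
    obtain ⟨z₁, ha, hb⟩ := yl_cons.1 h2
    obtain ⟨z₂, hc, hd⟩ := yl_cons.1 h4
    obtain ⟨u, hu, huy⟩ := h3
    have hmin' : Min G n ((s₁ ++ [i]) ++ s₃) := by
      rw [List.append_assoc]
      exact hmin
    have hder : Rw (Yl G (s₁ ++ [i])) G.axm (z₁ ++ u ++ z₂) := by
      refine yl_append.2 ⟨_, h1, yl_cons.2 ⟨_, ?_, yl_nil.2 rfl⟩⟩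
      rw [List.append_assoc]
      exact ha.append (Rw.cons hu hc)
    by_cases hex : ∃ x₁ c x₂ y₁ y' y₂, u = x₁ ++ c :: x₂ ∧ y = y₁ ++ y' ++ y₂ ∧
        Rw (Yl G s₃) x₁ y₁ ∧ y' ∈ Yl G s₃ c ∧ Rw (Yl G s₃) x₂ y₂ ∧ Span y'
    · obtain ⟨u₁, S', u₂, y₁, y', y₂, rfl, rfl, h7, h8, h9, h10⟩ := hex
      refine H.bound hρ1 hρ s₃ (s₁ ++ [i]) (z₁ ++ u₁) S' (u₂ ++ z₂) (w₁ ++ y₁) y' (y₂ ++ w₂)
        hmin' ?_ (hb.append h7) h8 (h9.append hd) ?_ h10
      · have e1 : z₁ ++ (u₁ ++ S' :: u₂) ++ z₂ = z₁ ++ u₁ ++ S' :: (u₂ ++ z₂) := by simp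
        rw [← e1]
        exact hder
      · rw [h5]
        simp
    · have h7 := ns_of_not_exists huy hex
      obtain ⟨hw₁, hw₂⟩ := not_span_left h5 h6
      have h8 : Rw (NS s₃) (z₁ ++ u ++ z₂) ((W3 n).map inl) := by
        rw [h5]
        exact ((ns_of hb hw₁).append h7).append (ns_of hd hw₂)
      have h9 := H.nodup s₃ (s₁ ++ [i]) _ hmin' hder h8
      have hcard : s₃.length ≤ Nat.card (Fin 3 ⊕ G.V) := by
        have := Fintype.ofFinite (Fin 3 ⊕ G.V)
        have h10 := h9.length_le_card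
        rw [List.length_map] at h10
        rw [Nat.card_eq_fintype_card]
        exact h10
      have h10 := length_yl hρ s₃ u y huy
      have h11 := count_span h5 h6
      have h12 := cnt_le (inl 1) y
      have h13 := hρ i S u hu
      calc n = cnt (inl 1) y := h11.symm
        _ ≤ y.length := h12
        _ ≤ u.length * ρ ^ s₃.length := h10
        _ ≤ ρ * ρ ^ Nat.card (Fin 3 ⊕ G.V) :=
          Nat.mul_le_mul h13 (Nat.pow_le_pow_right hρ1 hcard)

/-- The language of the words `a^n b^n c^n` is not generated by a 1-restricted system. -/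
theorem not_one : {w | ∃ n, w = W3 n} ∉ Family 1 (Fin 3) := by
  rintro ⟨G, hG, hL⟩
  have := G.finV
  have hX : ∀ i, ∃ X, ∀ c, c ≠ X → G.table i c = {[c]} := by
    intro i
    have h1 := hG i
    rw [Nat.cast_one, Set.encard_le_one_iff] at h1
    by_cases h : ∃ X, G.table i X ≠ {[X]}
    · obtain ⟨X, hX⟩ := h
      refine ⟨X, fun c hc => ?_⟩
      by_contra hne
      exact hc (h1 c X hne hX)
    · push Not at h
      exact ⟨inl 0, fun c _ => h c⟩
  choose X hX using hX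
  have H : Hyp G X := by
    refine ⟨hX, ?_⟩
    intro s u hu
    have h1 : u ∈ G.lang := derives_iff.2 ⟨s, hu⟩
    rw [hL] at h1
    exact h1
  obtain ⟨ρ, hρ1, hρ⟩ := exists_rho G
  obtain ⟨n, hn⟩ : ∃ n : ℕ, n = G.axm.length * ρ ^ Nat.card (Fin 3 ⊕ G.V) +
    ρ * ρ ^ Nat.card (Fin 3 ⊕ G.V) + 1 := ⟨_, rfl⟩
  have hder : ∃ N, ∃ s, Rw (Yl G s) G.axm ((W3 n).map inl) ∧ s.length = N := by
    have h1 : W3 n ∈ G.lang := by rw [hL]; exact ⟨n, rfl⟩
    obtain ⟨s, hs⟩ := derives_iff.1 h1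
    exact ⟨_, s, hs, rfl⟩
  classical
  obtain ⟨s, hs, hsN⟩ := Nat.find_spec hder
  have hmin : Min G n ([] ++ s) := by
    intro s' hs'
    rw [List.nil_append, hsN]
    exact Nat.find_min' hder ⟨s', hs', rfl⟩
  by_cases hex : ∃ x₁ c x₂ y₁ y' y₂, G.axm = x₁ ++ c :: x₂ ∧
      (W3 n).map inl = y₁ ++ y' ++ y₂ ∧ Rw (Yl G s) x₁ y₁ ∧ y' ∈ Yl G s c ∧
      Rw (Yl G s) x₂ y₂ ∧ Span y'
  · obtain ⟨x₁, c, x₂, y₁, y', y₂, h1, h2, h3, h4, h5, h6⟩ := hex
    have := H.bound hρ1 hρ s [] x₁ c x₂ y₁ y' y₂ hmin (yl_nil.2 h1.symm) h3 h4 h5 h2 h6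
    omega
  · have h1 := ns_of_not_exists hs hex
    have h2 := H.nodup s [] G.axm hmin (yl_nil.2 rfl) h1
    have hcard : s.length ≤ Nat.card (Fin 3 ⊕ G.V) := by
      have := Fintype.ofFinite (Fin 3 ⊕ G.V)
      have h10 := h2.length_le_card
      rw [List.length_map] at h10
      rw [Nat.card_eq_fintype_card]
      exact h10
    have h3 := length_yl hρ s _ _ hs
    have h4 : n ≤ ((W3 n).map inl : List (Fin 3 ⊕ G.V)).length := by
      have h5 := cnt_le (inl 0) ((W3 n).map inl : List (Fin 3 ⊕ G.V))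
      rw [count_W3] at h5
      exact h5
    have h5 : G.axm.length * ρ ^ s.length ≤ G.axm.length * ρ ^ Nat.card (Fin 3 ⊕ G.V) :=
      Nat.mul_le_mul_left _ (Nat.pow_le_pow_right hρ1 hcard)
    omega

end

/-! ### The language is an ET0L language -/

/-- the tables of a system for `a^n b^n c^n` -/
def tblW : Bool → Fin 3 ⊕ Fin 3 → Set (List (Fin 3 ⊕ Fin 3))
  | _, inl a => {[inl a]}
  | true, inr v => {[inl v, inr v]}
  | false, inr _ => {[]}

/-- a system for `a^n b^n c^n` -/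
def sysW : ET0L (Fin 3) where
  V := Fin 3
  ι := Bool
  finV := inferInstance
  finι := inferInstance
  neι := inferInstance
  table := tblW
  finite_table := by
    intro i c
    cases i <;> cases c <;> exact Set.finite_singleton _
  nonempty_table := by
    intro i c
    cases i <;> cases c <;> exact Set.singleton_nonempty _
  axm := [inr 0, inr 1, inr 2]
  axm_ne := by simp

/-- the sentential forms -/
def formW (n : ℕ) (b : Bool) : List (Fin 3 ⊕ Fin 3) :=
  (List.replicate n (inl 0) ++ if b then [inr 0] else []) ++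
  (List.replicate n (inl 1) ++ if b then [inr 1] else []) ++
  (List.replicate n (inl 2) ++ if b then [inr 2] else [])

theorem rw_replicate {i : Bool} {n : ℕ} {a : Fin 3} {y : List (Fin 3 ⊕ Fin 3)} :
    Rw (tblW i) (List.replicate n (inl a)) y ↔ y = List.replicate n (inl a) := by
  refine Rw.id_iff ?_
  intro c hc
  rw [List.eq_of_mem_replicate hc]
  cases i <;> rfl

theorem stepW_true {n : ℕ} {y : List (Fin 3 ⊕ Fin 3)} :
    Rw (tblW true) (formW n true) y ↔ y = formW (n + 1) true := by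
  have key : ∀ (a : Fin 3) (z : List (Fin 3 ⊕ Fin 3)),
      Rw (tblW true) (List.replicate n (inl a) ++ [inr a]) z ↔
        z = List.replicate (n + 1) (inl a) ++ [inr a] := by
    intro a z
    constructor
    · intro h
      obtain ⟨z₁, z₂, rfl, h1, h2⟩ := h.append_inv
      rw [rw_replicate.1 h1]
      have h3 : z₂ = [inl a, inr a] := h2.singleton_inv
      rw [h3, List.replicate_succ']
      simp
    · rintro rfl
      rw [List.replicate_succ', List.append_assoc]
      exact (rw_replicate.2 rfl).append (Rw.singleton rfl)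
  unfold formW
  simp only [if_true]
  constructor
  · intro h
    obtain ⟨z, z₃, rfl, h1, h2⟩ := h.append_inv
    obtain ⟨z₁, z₂, rfl, h3, h4⟩ := h1.append_inv
    rw [(key 0 z₁).1 h3, (key 1 z₂).1 h4, (key 2 z₃).1 h2]
  · rintro rfl
    exact (((key 0 _).2 rfl).append ((key 1 _).2 rfl)).append ((key 2 _).2 rfl)

theorem stepW_false {n : ℕ} {y : List (Fin 3 ⊕ Fin 3)} :
    Rw (tblW false) (formW n true) y ↔ y = formW n false := by
  have key : ∀ (a : Fin 3) (z : List (Fin 3 ⊕ Fin 3)),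
      Rw (tblW false) (List.replicate n (inl a) ++ [inr a]) z ↔
        z = List.replicate n (inl a) ++ [] := by
    intro a z
    constructor
    · intro h
      obtain ⟨z₁, z₂, rfl, h1, h2⟩ := h.append_inv
      rw [rw_replicate.1 h1]
      have h3 : z₂ = [] := h2.singleton_inv
      rw [h3]
    · rintro rfl
      exact (rw_replicate.2 rfl).append (Rw.singleton rfl)
  unfold formW
  simp only [if_true]
  constructor
  · intro h
    obtain ⟨z, z₃, rfl, h1, h2⟩ := h.append_inv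
    obtain ⟨z₁, z₂, rfl, h3, h4⟩ := h1.append_inv
    rw [(key 0 z₁).1 h3, (key 1 z₂).1 h4, (key 2 z₃).1 h2]
    rfl
  · rintro rfl
    exact (((key 0 _).2 rfl).append ((key 1 _).2 rfl)).append ((key 2 _).2 rfl)

theorem stepW_end {i : Bool} {n : ℕ} {y : List (Fin 3 ⊕ Fin 3)} :
    Rw (tblW i) (formW n false) y ↔ y = formW n false := by
  refine Rw.id_iff ?_
  intro c hc
  unfold formW at hc
  simp only [Bool.false_eq_true, if_false, List.append_nil, List.mem_append,
    List.mem_replicate] at hc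
  rcases hc with (h | h) | h <;> rw [h.2] <;> cases i <;> rfl

theorem formW_false (n : ℕ) : formW n false = (W3 n).map inl := by
  unfold formW W3
  simp

theorem lang_sysW : sysW.lang = {w | ∃ n, w = W3 n} := by
  ext w
  constructor
  · intro hw
    have key : ∀ y : List (Fin 3 ⊕ Fin 3),
        Relation.ReflTransGen (fun x y => ∃ i, Rw (tblW i) x y) [inr 0, inr 1, inr 2] y →
        ∃ n b, y = formW n b := by
      intro y hy
      induction hy with
      | refl => exact ⟨0, true, rfl⟩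
      | tail _ h ih =>
        obtain ⟨n, b, rfl⟩ := ih
        obtain ⟨i, hi⟩ := h
        cases b
        · exact ⟨n, false, stepW_end.1 hi⟩
        · cases i
          · exact ⟨n, false, stepW_false.1 hi⟩
          · exact ⟨n + 1, true, stepW_true.1 hi⟩
    obtain ⟨n, b, h⟩ := key (w.map inl) hw
    cases b
    · rw [formW_false] at h
      exact ⟨n, List.map_injective_iff.2 inl_injective h⟩
    · exfalso
      have h1 : (inr 0 : Fin 3 ⊕ Fin 3) ∈ (w.map inl : List (Fin 3 ⊕ Fin 3)) := by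
        rw [h]
        unfold formW
        simp
      obtain ⟨a, -, ha⟩ := List.mem_map.1 h1
      cases ha
  · rintro ⟨n, rfl⟩
    have key : ∀ n : ℕ, Relation.ReflTransGen (fun x y => ∃ i, Rw (tblW i) x y)
        [inr 0, inr 1, inr 2] (formW n true) := by
      intro n
      induction n with
      | zero => exact Relation.ReflTransGen.refl
      | succ n ih => exact ih.tail ⟨true, stepW_true.2 rfl⟩
    have h1 := (key n).tail ⟨false, stepW_false.2 rfl⟩
    rw [formW_false] at h1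
    exact h1

/-- The first two families are different. -/
theorem family_one_ne_two : Family 1 (Fin 3) ≠ Family 2 (Fin 3) := by
  intro h
  obtain ⟨G', h1, h2⟩ := exists_two sysW
  have h3 : {w | ∃ n, w = W3 n} ∈ Family 2 (Fin 3) := ⟨G', h1, by rw [h2, lang_sysW]⟩
  rw [← h] at h3
  exact not_one h3

end Pool.Agent.T6.H74.ET
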