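import Pool.Agent.T6.H74.ET.Build

/-!
# Soundness of the 3-restricted system
-/

set_option autoImplicit false

namespace Pool.Agent.T6.H74.ET

open Sum

/-- The requirements on the positions. -/
structure Good {ι : Type} {K : ℕ} (act : ZMod K → Option (Option ι)) : Prop where
  one_ne : ∀ P : ZMod K, P + 1 ≠ P
  two_ne : ∀ P : ZMod K, P + 1 ≠ P - 1
  rest : ∀ P, act P ≠ none → act (P + 1) = none
  zero : act 0 = none
  neg : act (-1) = none

section

variable {T : Type} (G : ET0L T) {K m : ℕ} (act : ZMod K → Option (Option G.ι))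
  (e : (T ⊕ G.V) ≃ Fin m)

/-- the letter which is rewritten by a table -/
def main : Idx (T ⊕ G.V) K m → Lt T (T ⊕ G.V) K m
  | Idx.mv P χ => inr (NT.M P χ)
  | Idx.dv j P => inr (NT.D j P)
  | Idx.cv c P _ => inr (NT.C c (P - 1))
  | Idx.er j => inr (NT.D j 0)

/-- partial processing -/
def B (P : ZMod K) (χ : Bool) (k : ℕ) (c : T ⊕ G.V) : Set (Wd G K m) :=
  {u | u ∈ op G act P χ c ∨ ((e c).val < k ∧ u = [inr (NT.C c (P - 1))])}

variable {G act e}

theorem tbl_ne {i : Idx (T ⊕ G.V) K m} {x : Lt T (T ⊕ G.V) K m} (h : x ≠ main G i)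
    {u : Wd G K m} (hu : u ∈ tbl G act e i x) : u = [x] ∨ u = [inr NT.F] := by
  cases i <;> unfold tbl at hu <;> unfold main at h <;> dsimp only at hu h <;>
    rw [if_neg h] at hu <;> split_ifs at hu
  all_goals first | exact Or.inl hu | exact Or.inr hu

theorem rw_main {i : Idx (T ⊕ G.V) K m} {w y : Wd G K m} (H : Rw (tbl G act e i) w y)
    (h : main G i ∉ w) : y = w ∨ inr NT.F ∈ y := by
  induction H with
  | nil => exact Or.inl rfl
  | cons hu _ ih =>
    rcases ih fun h' => h (List.mem_cons_of_mem _ h') with h1 | h1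
    · rcases tbl_ne (fun h' => h (by rw [← h']; exact List.mem_cons_self)) hu with h2 | h2
      · left; rw [h1, h2]; rfl
      · right; rw [h2]; exact List.mem_append_left _ (List.mem_singleton.2 rfl)
    · right; exact List.mem_append_right _ h1

theorem rw_guard {i : Idx (T ⊕ G.V) K m} {w y : Wd G K m} (H : Rw (tbl G act e i) w y)
    {x : Lt T (T ⊕ G.V) K m} (hx : x ∈ w) (h : tbl G act e i x = {[inr NT.F]}) :
    inr NT.F ∈ y := by
  obtain ⟨u, hu, hl⟩ := H.mem_of hx
  rw [h] at hu
  exact hl _ (by rw [hu]; exact List.mem_singleton.2 rfl)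

theorem mem_guardD {j : Fin (m + 1)} {P : ZMod K} {x : Lt T (T ⊕ G.V) K m} :
    x ∈ guardD G e j P ↔
      (∃ h : j.val < m, x = inr (NT.D ⟨j.val + 1, by omega⟩ P) ∨
        x = inr (NT.C (e.symm ⟨j.val, h⟩) (P - 1))) ∨
      (¬ j.val < m ∧ (x = inr (NT.M (P - 1) false) ∨ x = inr (NT.M (P - 1) true))) := by
  unfold guardD
  by_cases h : j.val < m
  · rw [dif_pos h]
    simp [h]
  · rw [dif_neg h]
    simp [h]

theorem mem_guardC {P : ZMod K} {χ : Bool} {x : Lt T (T ⊕ G.V) K m} :
    x ∈ guardC G act P χ ↔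
      (act (P - 1) ≠ none ∧ (x = inr (NT.M (P - 1) false) ∨ x = inr (NT.M (P - 1) true))) ∨
      (act (P - 1) = none ∧ (x = inr (NT.M (P - 1) false) ∨ x = inr (NT.M P (!χ)))) := by
  unfold guardC
  by_cases h : act (P - 1) = none
  · rw [if_neg (by simpa using h)]
    simp [h]
  · rw [if_pos (by simpa using h)]
    simp [h]

theorem tbl_inl {i : Idx (T ⊕ G.V) K m} {a : T} : tbl G act e i (inl a) = {[inl a]} := by
  cases i <;> unfold tbl <;> dsimp only <;> split_ifs <;> simp_all [mem_guardD, mem_guardC]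

theorem F_fixed {i : Idx (T ⊕ G.V) K m} : tbl G act e i (inr NT.F) = {[inr NT.F]} := by
  cases i <;> unfold tbl <;> dsimp only <;> split_ifs <;> simp_all [mem_guardD, mem_guardC]

theorem F_mem {i : Idx (T ⊕ G.V) K m} {w y : Wd G K m} (H : Rw (tbl G act e i) w y)
    (hx : inr NT.F ∈ w) : inr NT.F ∈ y := rw_guard H hx F_fixed

theorem mem_Dl {P : ZMod K} {k : ℕ} {l : Lt T (T ⊕ G.V) K m} :
    l ∈ Dl G P k ↔ ∃ j : Fin (m + 1), l = inr (NT.D j (if k ≤ j.val then P + 1 else P)) := by
  unfold Dl
  rw [List.mem_map]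
  constructor
  · rintro ⟨j, -, h⟩; exact ⟨j, h.symm⟩
  · rintro ⟨j, h⟩; exact ⟨j, List.mem_finRange j, h.symm⟩

/-- letters of the images of `op` -/
theorem op_letter {P : ZMod K} {χ : Bool} {c : T ⊕ G.V} {u : Wd G K m}
    (hu : u ∈ op G act P χ c) {l : Lt T (T ⊕ G.V) K m} (hl : l ∈ u) :
    (∃ d, l = inr (NT.C d P)) ∨ (∃ a, l = inl a) ∨ l = inr NT.F := by
  unfold op at hu
  split at hu
  · obtain ⟨v, -, rfl⟩ := hu
    obtain ⟨d, -, rfl⟩ := List.mem_map.1 hl
    exact Or.inl ⟨d, rfl⟩
  · rw [hu] at hl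
    exact Or.inr (Or.inl ⟨_, List.mem_singleton.1 hl⟩)
  · rw [hu] at hl
    exact Or.inr (Or.inr (List.mem_singleton.1 hl))
  · rw [hu] at hl
    exact Or.inl ⟨_, List.mem_singleton.1 hl⟩

/-- letters of the body -/
theorem body_letter {P : ZMod K} {χ : Bool} {k : ℕ} {x : List (T ⊕ G.V)} {body : Wd G K m}
    (H : Rw (B G act e P χ k) x body) {l : Lt T (T ⊕ G.V) K m} (hl : l ∈ body) :
    (∃ d, l = inr (NT.C d P)) ∨ (∃ d, l = inr (NT.C d (P - 1))) ∨ (∃ a, l = inl a) ∨
      l = inr NT.F := by
  obtain ⟨c, -, u, hu, hl'⟩ := H.letter hl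
  rcases hu with hu | ⟨-, rfl⟩
  · rcases op_letter hu hl' with h | h
    · exact Or.inl h
    · exact Or.inr (Or.inr h)
  · exact Or.inr (Or.inl ⟨_, List.mem_singleton.1 hl'⟩)

theorem not_M_Dl {P Q : ZMod K} {k : ℕ} {χ : Bool} :
    (inr (NT.M Q χ) : Lt T (T ⊕ G.V) K m) ∉ Dl G P k := by
  intro h
  obtain ⟨j, hj⟩ := mem_Dl.1 h
  cases hj

theorem not_C_Dl {P Q : ZMod K} {k : ℕ} {c : T ⊕ G.V} :
    (inr (NT.C c Q) : Lt T (T ⊕ G.V) K m) ∉ Dl G P k := by
  intro h
  obtain ⟨j, hj⟩ := mem_Dl.1 h
  cases hj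

theorem not_M_body {P Q : ZMod K} {k : ℕ} {χ χ' : Bool} {x : List (T ⊕ G.V)} {body : Wd G K m}
    (H : Rw (B G act e P χ k) x body) : (inr (NT.M Q χ') : Lt T (T ⊕ G.V) K m) ∉ body := by
  intro h
  rcases body_letter H h with ⟨d, h⟩ | ⟨d, h⟩ | ⟨a, h⟩ | h <;> cases h

theorem not_D_body {P Q : ZMod K} {k : ℕ} {χ : Bool} {j : Fin (m + 1)} {x : List (T ⊕ G.V)}
    {body : Wd G K m} (H : Rw (B G act e P χ k) x body) :
    (inr (NT.D j Q) : Lt T (T ⊕ G.V) K m) ∉ body := by
  intro h
  rcases body_letter H h with ⟨d, h⟩ | ⟨d, h⟩ | ⟨a, h⟩ | h <;> cases h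

variable (G act e)

/-- the invariant of the sentential forms with master -/
def InvA (w : Wd G K m) : Prop :=
  ∃ (P : ZMod K) (χ : Bool) (k : ℕ) (x : List (T ⊕ G.V)) (body : Wd G K m),
    k ≤ m + 1 ∧ (χ = true → act P ≠ none) ∧ G.Derives G.axm x ∧ w = W G P χ k body ∧
      Rw (B G act e P χ k) x body

/-- the invariant of the sentential forms without master -/
def InvB (w : Wd G K m) : Prop :=
  ∃ (v : Wd G K m) (w₀ : List T), (∀ l ∈ v, ∃ j P, l = inr (NT.D j P)) ∧ w₀ ∈ G.lang ∧
    w = v ++ w₀.map inl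

/-- the invariant -/
def Inv (w : Wd G K m) : Prop := InvA G act e w ∨ InvB G w ∨ inr NT.F ∈ w

variable {G act e}

theorem invB_step {i : Idx (T ⊕ G.V) K m} {w y : Wd G K m} (hw : InvB G w)
    (H : Rw (tbl G act e i) w y) : InvB G y ∨ inr NT.F ∈ y := by
  by_cases hF : inr NT.F ∈ y
  · exact Or.inr hF
  left
  obtain ⟨v, w₀, hv, hw₀, rfl⟩ := hw
  obtain ⟨v', y', rfl, h1, h2⟩ := H.append_inv
  have hy' : y' = w₀.map inl := by
    refine (Rw.id_iff ?_).1 h2
    intro c hc
    obtain ⟨a, -, rfl⟩ := List.mem_map.1 hc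
    exact tbl_inl
  subst hy'
  refine ⟨v', w₀, ?_, hw₀, rfl⟩
  intro l hl
  obtain ⟨c, hc, u, hu, hlu⟩ := h1.letter hl
  obtain ⟨j, P, rfl⟩ := hv c hc
  by_cases hm : (inr (NT.D j P) : Lt T (T ⊕ G.V) K m) = main G i
  · cases i with
    | mv P' χ' => cases hm
    | cv c P' χ' => cases hm
    | dv j' P' =>
      cases hm
      unfold tbl at hu
      dsimp only at hu
      rw [if_pos rfl] at hu
      rw [hu] at hlu
      exact ⟨_, _, List.mem_singleton.1 hlu⟩
    | er j' =>
      cases hm
      unfold tbl at hu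
      dsimp only at hu
      rw [if_pos rfl] at hu
      rw [hu] at hlu
      cases hlu
  · rcases tbl_ne hm hu with rfl | rfl
    · exact ⟨_, _, List.mem_singleton.1 hlu⟩
    · rw [List.mem_singleton.1 hlu] at hl
      exact absurd (List.mem_append_left _ hl) hF

theorem op_cls {P : ZMod K} {χ : Bool} (h : act P = none ∨ χ = false) (c : T ⊕ G.V) :
    op G (m := m) act P χ c = {[inr (NT.C c P)]} := by
  unfold op
  split
  · simp_all
  · simp_all
  · simp_all
  · rfl

theorem op_table {P : ZMod K} {τ : G.ι} (h : act P = some (some τ)) (c : T ⊕ G.V) :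
    op G (m := m) act P true c = (List.map fun d => inr (NT.C d P)) '' G.table τ c := by
  unfold op
  rw [h]

theorem op_final_inl {P : ZMod K} (h : act P = some none) (a : T) :
    op G (m := m) act P true (inl a) = {[inl a]} := by
  unfold op
  rw [h]

theorem op_final_inr {P : ZMod K} (h : act P = some none) (v : G.V) :
    op G (m := m) act P true (inr v) = {[inr NT.F]} := by
  unfold op
  rw [h]

theorem rw_cls {P : ZMod K} {χ : Bool} (h : act P = none ∨ χ = false) {x : List (T ⊕ G.V)}
    {body : Wd G K m} : Rw (op G act P χ) x body ↔ body = cls G P x :=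
  Rw.map_iff (f := fun c => inr (NT.C c P)) fun c _ => op_cls h c

theorem rw_table {P : ZMod K} {τ : G.ι} (h : act P = some (some τ)) {x : List (T ⊕ G.V)}
    {body : Wd G K m} :
    Rw (op G act P true) x body ↔ ∃ x', Rw (G.table τ) x x' ∧ body = cls G P x' := by
  induction x generalizing body with
  | nil =>
    constructor
    · intro H; exact ⟨[], Rw.nil, H.nil_inv⟩
    · rintro ⟨x', H, rfl⟩; rw [H.nil_inv]; exact Rw.nil
  | cons c x ih =>
    constructor
    · intro H
      obtain ⟨u, y', rfl, hu, H'⟩ := H.cons_inv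
      obtain ⟨x', hx', rfl⟩ := ih.1 H'
      rw [op_table h] at hu
      obtain ⟨v, hv, rfl⟩ := hu
      exact ⟨v ++ x', Rw.cons hv hx', by simp [cls]⟩
    · rintro ⟨x', H, rfl⟩
      obtain ⟨u, y', rfl, hu, H'⟩ := H.cons_inv
      have h1 : (List.map fun d => (inr (NT.C d P) : Lt T (T ⊕ G.V) K m)) u ∈
          op G act P true c := by
        rw [op_table h]; exact ⟨u, hu, rfl⟩
      have h2 := Rw.cons h1 (ih.2 ⟨y', H', rfl⟩)
      simpa [cls] using h2

theorem rw_final {P : ZMod K} (h : act P = some none) {x : List (T ⊕ G.V)}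
    {body : Wd G K m} (H : Rw (op G act P true) x body) :
    (∃ w₀ : List T, x = w₀.map inl ∧ body = w₀.map inl) ∨ inr NT.F ∈ body := by
  induction x generalizing body with
  | nil => left; exact ⟨[], rfl, H.nil_inv⟩
  | cons c x ih =>
    obtain ⟨u, y', rfl, hu, H'⟩ := H.cons_inv
    rcases ih H' with ⟨w₀, rfl, rfl⟩ | h1
    · rcases c with a | v
      · rw [op_final_inl h] at hu
        left
        refine ⟨a :: w₀, by simp, ?_⟩
        rw [hu]
        simp
      · rw [op_final_inr h] at hu
        right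
        rw [hu]
        simp
    · right
      exact List.mem_append_right _ h1

theorem eq_or_add {P Q : ZMod K} : Q = P ∨ Q = P + 1 ∨ (Q ≠ P ∧ Q ≠ P + 1) := by
  by_cases h : Q = P
  · exact Or.inl h
  by_cases h' : Q = P + 1
  · exact Or.inr (Or.inl h')
  · exact Or.inr (Or.inr ⟨h, h'⟩)

theorem Dl_id {i : Idx (T ⊕ G.V) K m} {P : ZMod K} {k : ℕ} {y : Wd G K m}
    (h : ∀ j : Fin (m + 1), tbl G act e i (inr (NT.D j (if k ≤ j.val then P + 1 else P))) =
      {[inr (NT.D j (if k ≤ j.val then P + 1 else P))]}) :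
    Rw (tbl G act e i) (Dl G P k) y ↔ y = Dl G P k := by
  refine Rw.id_iff ?_
  intro c hc
  obtain ⟨j, rfl⟩ := mem_Dl.1 hc
  exact h j

theorem stepA_mv {P : ZMod K} {χ : Bool} {k : ℕ} {x : List (T ⊕ G.V)}
    {body y : Wd G K m} (hx : G.Derives G.axm x)
    (hb : Rw (B G act e P χ k) x body)
    (H : Rw (tbl G act e (Idx.mv P χ)) (W G P χ k body) y) : Inv G act e y := by
  by_cases hF : inr NT.F ∈ y
  · exact Or.inr (Or.inr hF)
  obtain ⟨u, y', rfl, hu, H'⟩ := Rw.cons_inv H
  have hF' : inr NT.F ∉ y' := fun h => hF (List.mem_append_right _ h)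
  have hmain : main G (Idx.mv P χ) ∉ Dl G P k ++ body := by
    intro h
    rcases List.mem_append.1 h with h | h
    · exact not_M_Dl h
    · exact not_M_body hb h
  rcases rw_main H' hmain with rfl | h
  swap
  · exact absurd h hF'
  -- the token `0` has moved
  have hk : k = 0 := by
    by_contra hk
    refine hF' (rw_guard H' (x := inr (NT.D 0 P)) ?_ ?_)
    · refine List.mem_append_left _ (mem_Dl.2 ⟨0, ?_⟩)
      rw [if_neg]
      simpa using hk
    · unfold tbl
      dsimp only
      rw [if_neg (by simp), if_pos rfl]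
  subst hk
  have hbody : Rw (op G act P χ) x body := by
    refine hb.imp ?_
    intro c _ u' hu' _
    rcases hu' with h | ⟨h, -⟩
    · exact h
    · exact absurd h (Nat.not_lt_zero _)
  have hDl : ∀ l : Fin (m + 1), (0 : ℕ) ≤ l.val := fun l => Nat.zero_le _
  have hDl0 : (Dl G P 0 : Wd G K m) = Dl G (P + 1) (m + 1) := by
    unfold Dl
    refine List.map_congr_left ?_
    intro j _
    rw [if_pos (Nat.zero_le _), if_neg (by omega)]
  unfold tbl at hu
  dsimp only at hu
  rw [if_pos rfl] at hu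
  unfold next at hu
  by_cases hfin : act P = some none ∧ χ = true
  · rw [if_pos hfin] at hu
    obtain ⟨hP, rfl⟩ := hfin
    rcases rw_final hP hbody with ⟨w₀, rfl, rfl⟩ | h
    · right; left
      refine ⟨Dl G P 0, w₀, ?_, hx, ?_⟩
      · intro l hl
        obtain ⟨j, hj⟩ := mem_Dl.1 hl
        exact ⟨_, _, hj⟩
      · rw [hu, List.nil_append]
    · exact absurd (List.mem_append_right _ h) hF'
  · rw [if_neg hfin] at hu
    obtain ⟨χ', hχ', rfl⟩ := hu
    left
    have key : ∃ x', G.Derives G.axm x' ∧ body = cls G P x' := by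
      rcases hP : act P with _ | τ'
      · exact ⟨x, hx, (rw_cls (Or.inl hP)).1 hbody⟩
      · rcases χ with _ | _
        · exact ⟨x, hx, (rw_cls (Or.inr rfl)).1 hbody⟩
        · rcases τ' with _ | τ
          · exact absurd ⟨hP, rfl⟩ hfin
          · obtain ⟨x', h1, h2⟩ := (rw_table hP).1 hbody
            exact ⟨x', hx.tail ⟨τ, h1⟩, h2⟩
    obtain ⟨x', hx', rfl⟩ := key
    refine ⟨P + 1, χ', m + 1, x', cls G P x', le_rfl, hχ', hx', ?_, ?_⟩
    · rw [hDl0]; rfl
    · refine (Rw.map_iff (h := fun c => {([inr (NT.C c P)] : Wd G K m)})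
        (f := fun c => inr (NT.C c P)) (fun _ _ => rfl)).2 rfl |>.imp ?_
      intro c _ u' hu' _
      right
      refine ⟨by omega, ?_⟩
      rw [hu', add_sub_cancel_right]

/-- the state, if nothing happens -/
theorem stay {P : ZMod K} {χ : Bool} {k : ℕ} {x : List (T ⊕ G.V)}
    {body y : Wd G K m} (hk : k ≤ m + 1) (hχ : χ = true → act P ≠ none)
    (hx : G.Derives G.axm x) (hb : Rw (B G act e P χ k) x body)
    {i : Idx (T ⊕ G.V) K m}
    (H : Rw (tbl G act e i) (W G P χ k body) y)
    (h : main G i ∉ W G P χ k body) : Inv G act e y := by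
  rcases rw_main H h with rfl | h
  · exact Or.inl ⟨P, χ, k, x, body, hk, hχ, hx, rfl, hb⟩
  · exact Or.inr (Or.inr h)

theorem mem_W {P : ZMod K} {χ : Bool} {k : ℕ} {body : Wd G K m} {l : Lt T (T ⊕ G.V) K m} :
    l ∈ W G P χ k body ↔ l = inr (NT.M P χ) ∨
      (∃ j : Fin (m + 1), l = inr (NT.D j (if k ≤ j.val then P + 1 else P))) ∨ l ∈ body := by
  unfold W
  rw [List.mem_cons, List.mem_append, mem_Dl]

theorem stepA_dv {P : ZMod K} {χ : Bool} {k : ℕ} {x : List (T ⊕ G.V)}
    {body y : Wd G K m} (hk : k ≤ m + 1) (hχ : χ = true → act P ≠ none)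
    (hx : G.Derives G.axm x) (hb : Rw (B G act e P χ k) x body)
    {j : Fin (m + 1)} {Q : ZMod K}
    (H : Rw (tbl G act e (Idx.dv j Q)) (W G P χ k body) y) : Inv G act e y := by
  classical
  by_cases hF : inr NT.F ∈ y
  · exact Or.inr (Or.inr hF)
  by_cases hm : main G (Idx.dv j Q) ∈ W G P χ k body
  swap
  · exact stay hk hχ hx hb H hm
  have hguard : ∀ l ∈ guardD G e j Q, l ∉ W G P χ k body := by
    intro l hl hl'
    refine hF (rw_guard H hl' ?_)
    unfold tbl
    dsimp only
    rw [if_neg, if_pos hl]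
    rintro rfl
    rcases mem_guardD.1 hl with ⟨h, h1 | h1⟩ | ⟨h, h1 | h1⟩
    · have h2 := congrArg (fun z : Lt T (T ⊕ G.V) K m => match z with
        | inr (NT.D j _) => j.val
        | _ => 0) h1
      simp at h2
    · cases h1
    · cases h1
    · cases h1
  unfold main at hm
  rcases mem_W.1 hm with h | ⟨j', hj'⟩ | h
  · cases h
  swap
  · exact absurd h (not_D_body hb)
  have h1 : j = j' ∧ Q = (if k ≤ j'.val then P + 1 else P) := by
    simpa using hj'
  obtain ⟨rfl, hQ⟩ := h1
  by_cases hkj : k ≤ j.val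
  · -- impossible
    exfalso
    rw [if_pos hkj] at hQ
    subst hQ
    by_cases hjm : j.val < m
    · refine hguard (inr (NT.D ⟨j.val + 1, by omega⟩ (P + 1))) ?_ ?_
      · exact mem_guardD.2 (Or.inl ⟨hjm, Or.inl rfl⟩)
      · refine mem_W.2 (Or.inr (Or.inl ⟨⟨j.val + 1, by omega⟩, ?_⟩))
        rw [if_pos (by simp; omega)]
    · refine hguard (inr (NT.M P χ)) ?_ (mem_W.2 (Or.inl rfl))
      refine mem_guardD.2 (Or.inr ⟨hjm, ?_⟩)
      rw [add_sub_cancel_right]
      cases χ
      · exact Or.inl rfl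
      · exact Or.inr rfl
  · rw [if_neg hkj] at hQ
    subst hQ
    -- `k = j + 1`
    have hkj' : k = j.val + 1 := by
      by_contra hne
      have hjm : j.val < m := by
        have := j.isLt
        omega
      refine hguard (inr (NT.D ⟨j.val + 1, by omega⟩ Q)) ?_ ?_
      · exact mem_guardD.2 (Or.inl ⟨hjm, Or.inl rfl⟩)
      · refine mem_W.2 (Or.inr (Or.inl ⟨⟨j.val + 1, by omega⟩, ?_⟩))
        rw [if_neg (by simp; omega)]
    subst hkj'
    obtain ⟨u, y', rfl, hu, H'⟩ := Rw.cons_inv H
    obtain ⟨y₁, y₂, rfl, h1, h2⟩ := H'.append_inv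
    have hu' : u = [inr (NT.M Q χ)] := by
      rcases tbl_ne (by unfold main; simp) hu with h | h
      · exact h
      · exfalso
        refine hF ?_
        rw [h]
        exact List.mem_append_left _ (List.mem_singleton.2 rfl)
    have hy₁ : y₁ = Dl G Q j.val := by
      have h3 : ∀ c ∈ (Dl G Q (j.val + 1) : Wd G K m), tbl G act e (Idx.dv j Q) c =
          {[if c = inr (NT.D j Q) then inr (NT.D j (Q + 1)) else c]} := by
        intro c hc
        have hcW : c ∈ W G Q χ (j.val + 1) body := by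
          unfold W
          exact List.mem_cons_of_mem _ (List.mem_append_left _ hc)
        have hcg : c ∉ guardD G e j Q := fun h => hguard c h hcW
        unfold tbl
        dsimp only
        by_cases h : c = inr (NT.D j Q)
        · rw [if_pos h, if_pos h]
        · rw [if_neg h, if_neg hcg, if_neg h]
      rw [(Rw.map_iff h3).1 h1]
      unfold Dl
      rw [List.map_map]
      refine List.map_congr_left ?_
      intro i _
      rw [Function.comp_apply]
      by_cases hij : i = j
      · subst hij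
        have e1 : (if i.val + 1 ≤ i.val then Q + 1 else Q) = Q := if_neg (by omega)
        rw [e1, if_pos rfl, if_pos le_rfl]
      · have hij' : i.val ≠ j.val := fun h => hij (Fin.ext h)
        rw [if_neg (by simp [hij])]
        by_cases h4 : j.val + 1 ≤ i.val
        · rw [if_pos h4, if_pos (by omega)]
        · rw [if_neg h4, if_neg (by omega)]
    have hy₂ : y₂ = body := by
      rcases rw_main h2 (not_D_body hb) with h | h
      · exact h
      · exact absurd (List.mem_append_right _ (List.mem_append_right _ h)) hF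
    subst hy₁
    rw [hu', hy₂]
    left
    refine ⟨Q, χ, j.val, x, body, by omega, hχ, hx, rfl, ?_⟩
    refine hb.imp ?_
    intro c _ u' hu'' hl
    rcases hu'' with h | ⟨h, h'⟩
    · exact Or.inl h
    · right
      refine ⟨?_, h'⟩
      by_contra hc
      have hce : (e c).val = j.val := by omega
      have hjm : j.val < m := by
        have := (e c).isLt
        omega
      refine hguard (inr (NT.C c (Q - 1))) ?_ ?_
      · refine mem_guardD.2 (Or.inl ⟨hjm, Or.inr ?_⟩)
        have : e.symm ⟨j.val, hjm⟩ = c := by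
          rw [Equiv.symm_apply_eq]
          exact Fin.ext hce.symm
        rw [this]
      · refine mem_W.2 (Or.inr (Or.inr ?_))
        refine hl _ ?_
        rw [h']
        exact List.mem_singleton.2 rfl

theorem stepA_cv (hg : Good act) {P : ZMod K} {χ : Bool} {k : ℕ} {x : List (T ⊕ G.V)}
    {body y : Wd G K m} (hk : k ≤ m + 1) (hχ : χ = true → act P ≠ none)
    (hx : G.Derives G.axm x) (hb : Rw (B G act e P χ k) x body)
    {c : T ⊕ G.V} {Q : ZMod K} {χ' : Bool}
    (H : Rw (tbl G act e (Idx.cv c Q χ')) (W G P χ k body) y) : Inv G act e y := by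
  by_cases hF : inr NT.F ∈ y
  · exact Or.inr (Or.inr hF)
  by_cases hm : main G (Idx.cv c Q χ') ∈ W G P χ k body
  swap
  · exact stay hk hχ hx hb H hm
  have hguard : ∀ l ∈ guardC G act Q χ', l ∉ W G P χ k body := by
    intro l hl hl'
    refine hF (rw_guard H hl' ?_)
    unfold tbl
    dsimp only
    rw [if_neg, if_pos hl]
    rintro rfl
    rcases mem_guardC.1 hl with ⟨h, h1 | h1⟩ | ⟨h, h1 | h1⟩ <;> cases h1
  unfold main at hm
  rcases mem_W.1 hm with h | ⟨j', hj'⟩ | h
  · cases h
  · cases hj'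
  have hQ : Q = P ∨ Q = P + 1 := by
    rcases body_letter hb h with ⟨d, h⟩ | ⟨d, h⟩ | ⟨a, h⟩ | h
    · right
      have : Q - 1 = P := by
        have h3 : c = d ∧ Q - 1 = P := by simpa using h
        exact h3.2
      rw [← this, sub_add_cancel]
    · left
      have h3 : c = d ∧ Q - 1 = P - 1 := by simpa using h
      exact sub_left_injective h3.2
    · cases h
    · cases h
  rcases hQ with rfl | rfl
  swap
  · -- impossible
    exfalso
    refine hguard (inr (NT.M P χ)) ?_ (mem_W.2 (Or.inl rfl))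
    refine mem_guardC.2 ?_
    rw [add_sub_cancel_right]
    by_cases hP : act P = none
    · right
      refine ⟨hP, Or.inl ?_⟩
      cases χ
      · rfl
      · exact absurd hP (hχ rfl)
    · left
      refine ⟨hP, ?_⟩
      cases χ
      · exact Or.inl rfl
      · exact Or.inr rfl
  · have hop : ∀ d, op G (m := m) act Q χ' d = op G act Q χ d := by
      intro d
      by_cases hP : act (Q - 1) = none
      · have : χ' = χ := by
          by_contra hne
          refine hguard (inr (NT.M Q χ)) ?_ (mem_W.2 (Or.inl rfl))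
          refine mem_guardC.2 (Or.inr ⟨hP, Or.inr ?_⟩)
          cases χ <;> cases χ' <;> simp_all
        rw [this]
      · have hQ0 : act Q = none := by
          have := hg.rest _ hP
          rwa [sub_add_cancel] at this
        rw [op_cls (Or.inl hQ0), op_cls (Or.inl hQ0)]
    obtain ⟨u, y', rfl, hu, H'⟩ := Rw.cons_inv H
    obtain ⟨y₁, y₂, rfl, h1, h2⟩ := H'.append_inv
    have hu' : u = [inr (NT.M Q χ)] := by
      rcases tbl_ne (by unfold main; simp) hu with h | h
      · exact h
      · exfalso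
        refine hF ?_
        rw [h]
        exact List.mem_append_left _ (List.mem_singleton.2 rfl)
    have hy₁ : y₁ = Dl G Q k := by
      rcases rw_main h1 (not_C_Dl) with h | h
      · exact h
      · exact absurd (List.mem_append_right _ (List.mem_append_left _ h)) hF
    rw [hu', hy₁]
    left
    refine ⟨Q, χ, k, x, y₂, hk, hχ, hx, rfl, ?_⟩
    refine (hb.comp h2).imp ?_
    rintro d _ v ⟨u₁, hu₁, hv⟩ hl
    have hFv : inr NT.F ∉ v := fun h =>
      hF (List.mem_append_right _ (List.mem_append_right _ (hl _ h)))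
    rcases hu₁ with h3 | ⟨h3, rfl⟩
    · left
      have hn : main G (Idx.cv c Q χ') ∉ u₁ := by
        intro h4
        rcases op_letter h3 h4 with ⟨d', h5⟩ | ⟨a, h5⟩ | h5
        · have h6 : c = d' ∧ Q - 1 = Q := by simpa [main] using h5
          exact hg.one_ne (Q - 1) (by rw [sub_add_cancel]; exact h6.2.symm)
        · cases h5
        · cases h5
      rcases rw_main hv hn with rfl | h
      · exact h3
      · exact absurd h hFv
    · by_cases hcd : d = c
      · subst hcd
        left
        have h5 := hv.singleton_inv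
        unfold tbl at h5
        dsimp only at h5
        rw [if_pos rfl, hop] at h5
        exact h5
      · right
        refine ⟨h3, ?_⟩
        rcases tbl_ne (by unfold main; simpa using hcd) hv.singleton_inv with h5 | h5
        · exact h5
        · exfalso
          refine hFv ?_
          rw [h5]
          exact List.mem_singleton.2 rfl

theorem stepA_er (hg : Good act) {P : ZMod K} {χ : Bool} {k : ℕ} {x : List (T ⊕ G.V)}
    {body y : Wd G K m} (hk : k ≤ m + 1) (hχ : χ = true → act P ≠ none)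
    (hx : G.Derives G.axm x) (hb : Rw (B G act e P χ k) x body) {j : Fin (m + 1)}
    (H : Rw (tbl G act e (Idx.er j)) (W G P χ k body) y) : Inv G act e y := by
  by_cases hm : main G (Idx.er j) ∈ W G P χ k body
  swap
  · exact stay hk hχ hx hb H hm
  right; right
  have hM : (inr (NT.M P χ) : Lt T (T ⊕ G.V) K m) ∈ W G P χ k body := mem_W.2 (Or.inl rfl)
  have h0 : P = 0 ∨ P = -1 := by
    unfold main at hm
    rcases mem_W.1 hm with h | ⟨j', hj'⟩ | h
    · cases h
    · have h1 : j = j' ∧ 0 = (if k ≤ j'.val then P + 1 else P) := by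
        simpa using hj'
      by_cases hkj : k ≤ j'.val
      · rw [if_pos hkj] at h1
        right
        exact eq_neg_of_add_eq_zero_left h1.2.symm
      · rw [if_neg hkj] at h1
        exact Or.inl h1.2.symm
    · exact absurd h (not_D_body hb)
  refine rw_guard H hM ?_
  rcases h0 with rfl | rfl
  · have : χ = false := by
      cases χ
      · rfl
      · exact absurd hg.zero (hχ rfl)
    subst this
    unfold tbl
    dsimp only
    rw [if_neg (by simp), if_pos (Or.inr rfl)]
  · have : χ = false := by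
      cases χ
      · rfl
      · exact absurd hg.neg (hχ rfl)
    subst this
    unfold tbl
    dsimp only
    rw [if_neg (by simp), if_pos (Or.inl rfl)]

theorem stepA_mv' {P : ZMod K} {χ : Bool} {k : ℕ} {x : List (T ⊕ G.V)}
    {body y : Wd G K m} (hk : k ≤ m + 1) (hχ : χ = true → act P ≠ none)
    (hx : G.Derives G.axm x) (hb : Rw (B G act e P χ k) x body)
    {Q : ZMod K} {χ' : Bool}
    (H : Rw (tbl G act e (Idx.mv Q χ')) (W G P χ k body) y) : Inv G act e y := by
  by_cases hm : main G (Idx.mv Q χ') ∈ W G P χ k body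
  swap
  · exact stay hk hχ hx hb H hm
  unfold main at hm
  rcases mem_W.1 hm with h | ⟨j', hj'⟩ | h
  · have h1 : Q = P ∧ χ' = χ := by simpa using h
    obtain ⟨rfl, rfl⟩ := h1
    exact stepA_mv hx hb H
  · cases hj'
  · exact absurd h (not_M_body hb)

theorem inv_step (hg : Good act) {i : Idx (T ⊕ G.V) K m} {w y : Wd G K m}
    (hw : Inv G act e w) (H : Rw (tbl G act e i) w y) : Inv G act e y := by
  rcases hw with hw | hw | hw
  · obtain ⟨P, χ, k, x, body, hk, hχ, hx, rfl, hb⟩ := hw
    cases i with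
    | mv Q χ' => exact stepA_mv' hk hχ hx hb H
    | dv j Q => exact stepA_dv hk hχ hx hb H
    | cv c Q χ' => exact stepA_cv hg hk hχ hx hb H
    | er j => exact stepA_er hg hk hχ hx hb H
  · exact Or.inr (invB_step hw H)
  · exact Or.inr (Or.inr (F_mem H hw))

theorem sound [Finite T] [NeZero K] (hg : Good act) : (newSys G act e).lang ⊆ G.lang := by
  intro w hw
  have key : ∀ y, (newSys G act e).Derives (newSys G act e).axm y → Inv G act e y := by
    intro y hy
    induction hy with
    | refl =>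
      left
      refine ⟨0, false, m + 1, G.axm, cls G (0 - 1) G.axm, le_rfl, by simp,
        Relation.ReflTransGen.refl, rfl, ?_⟩
      refine (Rw.map_iff (h := fun c => {([inr (NT.C c (0 - 1))] : Wd G K m)})
        (f := fun c => inr (NT.C c (0 - 1))) (fun _ _ => rfl)).2 rfl |>.imp ?_
      intro c _ u' hu' _
      right
      exact ⟨by omega, hu'⟩
    | tail _ h ih =>
      obtain ⟨i, hi⟩ := h
      exact inv_step hg ih hi
  have key' : Inv G act e (w.map inl : Wd G K m) := key _ hw
  rcases key' with h | h | h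
  · exfalso
    obtain ⟨P, χ, k, x, body, -, -, -, h, -⟩ := h
    have h1 : (inr (NT.M P χ) : Lt T (T ⊕ G.V) K m) ∈ (w.map inl : Wd G K m) := by
      rw [h]; exact mem_W.2 (Or.inl rfl)
    obtain ⟨a, -, ha⟩ := List.mem_map.1 h1
    cases ha
  · obtain ⟨v, w₀, hv, hw₀, h⟩ := h
    have hv0 : v = [] := by
      rcases v with _ | ⟨l, v⟩
      · rfl
      · exfalso
        obtain ⟨j, P, rfl⟩ := hv l List.mem_cons_self
        have h1 : (inr (NT.D j P) : Lt T (T ⊕ G.V) K m) ∈ (w.map inl : Wd G K m) := by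
          rw [h]; simp
        obtain ⟨a, -, ha⟩ := List.mem_map.1 h1
        cases ha
    subst hv0
    rw [List.nil_append] at h
    have : w = w₀ := List.map_injective_iff.2 inl_injective h
    rw [this]
    exact hw₀
  · exfalso
    obtain ⟨a, -, ha⟩ := List.mem_map.1 h
    cases ha

end

end Pool.Agent.T6.H74.ET
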