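import Pool.Agent.T6.H74.ET.Main

/-!
# From guarded systems to 2-restricted systems

A system is guarded if each of its tables rewrites one letter (its main letter), kills the letters
of a finite list (its guards), and fixes all other letters. For every letter `g` we introduce a
companion `ḡ`, such that a word containing both `g` and `ḡ` is dead: the tables which rewrite `g`
kill `ḡ`, and the tables which erase `ḡ` kill `g`. A table with guards can then be replaced by a
table which rewrites its main letter and adds the companions of the guards.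
-/

set_option autoImplicit false

namespace Pool.Agent.T6.H74.ET

open Sum

/-- Guarded systems. -/
structure Guarded {T : Type} (G : ET0L T) where
  /-- the dead letter -/
  F : G.V
  /-- the main letter of a table -/
  main : G.ι → G.V
  /-- the guards of a table -/
  guard : G.ι → List G.V
  F_fixed : ∀ i, G.table i (inr F) = {[inr F]}
  fixed : ∀ i x, x ≠ inr (main i) → (∀ g ∈ guard i, x ≠ inr g) → G.table i x = {[x]}
  killed : ∀ i, ∀ g ∈ guard i, G.table i (inr g) = {[inr F]}
  img_not : ∀ i, ∀ u ∈ G.table i (inr (main i)), ∀ g ∈ guard i, inr g ∉ u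

section

variable {T : Type} {G : ET0L T}

/-- new letters: the old letters and the companions -/
abbrev L2 (G : ET0L T) : Type := T ⊕ (G.V ⊕ G.V)

/-- the old letters as new letters -/
def lift : T ⊕ G.V → L2 G
  | inl a => inl a
  | inr v => inr (inl v)

/-- the companion -/
def bar (v : G.V) : L2 G := inr (inr v)

/-- the old letter, if it is one -/
def low : L2 G → Option (T ⊕ G.V)
  | inl a => some (inl a)
  | inr (inl v) => some (inr v)
  | inr (inr _) => none

/-- erasing the companions -/
def proj (x : List (L2 G)) : List (T ⊕ G.V) := x.filterMap low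

theorem proj_append (x y : List (L2 G)) : proj (x ++ y) = proj x ++ proj y :=
  List.filterMap_append

theorem proj_lift (x : List (T ⊕ G.V)) : proj (x.map lift) = x := by
  unfold proj
  induction x with
  | nil => rfl
  | cons c x ih =>
    rw [List.map_cons, List.filterMap_cons_some (b := c) (by cases c <;> rfl), ih]

theorem proj_bar (l : List G.V) : proj (l.map bar) = [] := by
  unfold proj
  induction l with
  | nil => rfl
  | cons c x ih =>
    rw [List.map_cons, List.filterMap_cons_none (by rfl), ih]

theorem mem_proj {x : List (L2 G)} {v : G.V} : inr v ∈ proj x ↔ inr (inl v) ∈ x := by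
  unfold proj
  rw [List.mem_filterMap]
  constructor
  · rintro ⟨l, hl, h⟩
    rcases l with a | (v' | v')
    · cases h
    · have : v' = v := by simpa [low] using h
      rw [← this]
      exact hl
    · cases h
  · intro h
    exact ⟨_, h, rfl⟩

theorem low_inl (a : T) : low (G := G) (inl a) = some (inl a) := rfl
theorem low_inr (v : G.V) : low (G := G) (inr (inl v)) = some (inr v) := rfl
theorem low_bar (v : G.V) : low (G := G) (bar v) = none := rfl

variable (H : Guarded G)

open Classical in
/-- the new tables -/
noncomputable def tbl2 : G.ι ⊕ G.V → L2 G → Set (List (L2 G))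
  | inl i, x => if x = inr (inl (H.main i)) then
      (fun u => u.map lift ++ (H.guard i).map bar) '' G.table i (inr (H.main i))
      else if x = bar (H.main i) then {[inr (inl H.F)]} else {[x]}
  | inr g, x => if x = bar g then {[]} else if x = inr (inl g) then {[inr (inl H.F)]} else {[x]}

/-- the 2-restricted system -/
noncomputable def sys2 : ET0L T where
  V := G.V ⊕ G.V
  ι := G.ι ⊕ G.V
  finV := by have := G.finV; infer_instance
  finι := by have := G.finV; have := G.finι; infer_instance
  neι := ⟨inl G.neι.some⟩
  table := tbl2 H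
  finite_table := by
    intro i c
    cases i <;> unfold tbl2 <;> dsimp only <;> split_ifs
    any_goals exact Set.finite_singleton _
    exact (G.finite_table _ _).image _
  nonempty_table := by
    intro i c
    cases i <;> unfold tbl2 <;> dsimp only <;> split_ifs
    any_goals exact Set.singleton_nonempty _
    exact (G.nonempty_table _ _).image _
  axm := G.axm.map lift
  axm_ne := by simpa using G.axm_ne

theorem encard_le_two {α : Type*} {s : Set α} (a b : α) (h : s ⊆ {a, b}) :
    s.encard ≤ (2 : ℕ) := by
  classical
  refine (Set.encard_le_encard h).trans ?_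
  have h1 : ({a, b} : Set α) = (({a, b} : Finset α) : Set α) := by simp
  rw [h1, Set.encard_coe_eq_coe_finsetCard]
  exact_mod_cast Finset.card_le_two

theorem sys2_restricted : (sys2 H).Restricted 2 := by
  intro i
  show {c | tbl2 H i c ≠ {[c]}}.encard ≤ _
  rcases i with i | g
  · refine encard_le_two (inr (inl (H.main i))) (bar (H.main i)) ?_
    intro x hx
    by_contra hn
    simp only [Set.mem_insert_iff, Set.mem_singleton_iff, not_or] at hn
    refine hx ?_
    unfold tbl2
    dsimp only
    rw [if_neg hn.1, if_neg hn.2]
  · refine encard_le_two (bar g) (inr (inl g)) ?_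
    intro x hx
    by_contra hn
    simp only [Set.mem_insert_iff, Set.mem_singleton_iff, not_or] at hn
    refine hx ?_
    unfold tbl2
    dsimp only
    rw [if_neg hn.1, if_neg hn.2]

/-- dead words -/
def Bad (y : List (L2 G)) : Prop :=
  inr (inl H.F) ∈ y ∨ ∃ g, inr (inl g) ∈ y ∧ bar g ∈ y

variable {H}

theorem F_mem2 {i : G.ι ⊕ G.V} {y y' : List (L2 G)} (h : Rw (tbl2 H i) y y')
    (hF : inr (inl H.F) ∈ y) : inr (inl H.F) ∈ y' := by
  obtain ⟨u, hu, hl⟩ := h.mem_of hF
  refine hl _ ?_
  rcases i with i | g
  · unfold tbl2 at hu
    dsimp only at hu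
    split_ifs at hu with h1 h2
    · obtain ⟨v, hv, rfl⟩ := hu
      have h3 : H.F = H.main i := by simpa using h1
      rw [← h3, H.F_fixed] at hv
      rw [hv]
      simp [lift]
    · rw [hu]; simp
    · rw [hu]; simp
  · unfold tbl2 at hu
    dsimp only at hu
    split_ifs at hu with h1 h2
    · cases h1
    · rw [hu]; simp
    · rw [hu]; simp

theorem mem_of_eq {i : G.ι ⊕ G.V} {y y' : List (L2 G)} (h : Rw (tbl2 H i) y y')
    {l : L2 G} (hl : l ∈ y) {l' : L2 G} (he : tbl2 H i l = {[l']}) : l' ∈ y' := by
  obtain ⟨u, hu, hlu⟩ := h.mem_of hl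
  rw [he] at hu
  exact hlu _ (by rw [hu]; exact List.mem_singleton.2 rfl)

theorem bad_step {i : G.ι ⊕ G.V} {y y' : List (L2 G)} (h : Rw (tbl2 H i) y y')
    (hb : Bad H y) : Bad H y' := by
  rcases hb with hF | ⟨g, hg, hg'⟩
  · exact Or.inl (F_mem2 h hF)
  · rcases i with i | g'
    · by_cases hm : g = H.main i
      · left
        refine mem_of_eq h hg' ?_
        unfold tbl2
        dsimp only
        rw [if_neg (by unfold bar; simp), if_pos (by rw [hm])]
      · right
        refine ⟨g, mem_of_eq h hg ?_, mem_of_eq h hg' ?_⟩
        · unfold tbl2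
          dsimp only
          rw [if_neg (by simpa using hm), if_neg (by unfold bar; simp)]
        · unfold tbl2
          dsimp only
          rw [if_neg (by unfold bar; simp), if_neg (by unfold bar; simpa using hm)]
    · by_cases hm : g = g'
      · left
        refine mem_of_eq h hg ?_
        unfold tbl2
        dsimp only
        rw [if_neg (by unfold bar; simp), if_pos (by rw [hm])]
      · right
        refine ⟨g, mem_of_eq h hg ?_, mem_of_eq h hg' ?_⟩
        · unfold tbl2
          dsimp only
          rw [if_neg (by unfold bar; simp), if_neg (by simpa using hm)]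
        · unfold tbl2
          dsimp only
          rw [if_neg (by unfold bar; simpa using hm), if_neg (by unfold bar; simp)]

theorem rw_proj {i : G.ι} {h : L2 G → Set (List (L2 G))} {y y' : List (L2 G)} (hr : Rw h y y')
    (hl : ∀ l ∈ y, ∀ u ∈ h l, (∀ l' ∈ u, l' ∈ y') → Rw (G.table i) (proj [l]) (proj u)) :
    Rw (G.table i) (proj y) (proj y') := by
  induction hr with
  | nil => exact Rw.nil
  | @cons c u y y' hu _ ih =>
    rw [proj_append, show c :: y = [c] ++ y from rfl, proj_append]
    refine Rw.append (hl c List.mem_cons_self u hu fun l' hl' => List.mem_append_left _ hl') ?_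
    exact ih fun l hl1 u' hu' hl2 => hl l (List.mem_cons_of_mem _ hl1) u' hu'
      fun l' hl' => List.mem_append_right _ (hl2 l' hl')

theorem proj_eq {h : L2 G → Set (List (L2 G))} {y y' : List (L2 G)} (hr : Rw h y y')
    (hl : ∀ l ∈ y, ∀ u ∈ h l, (∀ l' ∈ u, l' ∈ y') → proj u = proj [l]) :
    proj y' = proj y := by
  induction hr with
  | nil => rfl
  | @cons c u y y' hu _ ih =>
    rw [proj_append, show c :: y = [c] ++ y from rfl, proj_append,
      hl c List.mem_cons_self u hu fun l' hl' => List.mem_append_left _ hl',
      ih fun l hl1 u' hu' hl2 => hl l (List.mem_cons_of_mem _ hl1) u' hu'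
      fun l' hl' => List.mem_append_right _ (hl2 l' hl')]

theorem step_proj {i : G.ι ⊕ G.V} {y y' : List (L2 G)} (h : Rw (tbl2 H i) y y')
    (hb : ¬ Bad H y') : G.Derives (proj y) (proj y') := by
  have hF : inr (inl H.F) ∉ y' := fun h => hb (Or.inl h)
  rcases i with i | g
  · by_cases hm : inr (inl (H.main i)) ∈ y
    · refine Relation.ReflTransGen.single ⟨i, ?_⟩
      have hguard : ∀ g ∈ H.guard i, bar g ∈ y' := by
        intro g hg
        obtain ⟨u, hu, hl⟩ := h.mem_of hm
        unfold tbl2 at hu
        dsimp only at hu
        rw [if_pos rfl] at hu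
        obtain ⟨v, -, rfl⟩ := hu
        exact hl _ (List.mem_append_right _ (List.mem_map.2 ⟨g, hg, rfl⟩))
      refine rw_proj h ?_
      intro l hl u hu hlu
      unfold tbl2 at hu
      dsimp only at hu
      split_ifs at hu with h1 h2
      · obtain ⟨v, hv, rfl⟩ := hu
        dsimp only
        rw [proj_append, proj_lift, proj_bar, List.append_nil, h1]
        exact Rw.singleton hv
      · exact absurd (hlu _ (by rw [hu]; exact List.mem_singleton.2 rfl)) hF
      · rw [hu] at hlu ⊢
        rcases l with a | (v | v)
        · refine Rw.singleton (c := inl a) ?_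
          rw [H.fixed i (inl a) (by simp) (by simp)]
          rfl
        · refine Rw.singleton (c := inr v) ?_
          rw [H.fixed i (inr v) (fun h' => h1 (by rw [inr.inj h'])) ?_]
          · rfl
          · rintro g hg hvg
            refine hb (Or.inr ⟨g, ?_, hguard g hg⟩)
            rw [← inr.inj hvg]
            exact hlu _ (List.mem_singleton.2 rfl)
        · exact Rw.nil
    · rw [proj_eq h ?_]
      · exact Relation.ReflTransGen.refl
      · intro l hl u hu hlu
        unfold tbl2 at hu
        dsimp only at hu
        split_ifs at hu with h1 h2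
        · rw [h1] at hl
          exact absurd hl hm
        · exact absurd (hlu _ (by rw [hu]; exact List.mem_singleton.2 rfl)) hF
        · rw [hu]
  · rw [proj_eq h ?_]
    · exact Relation.ReflTransGen.refl
    · intro l hl u hu hlu
      unfold tbl2 at hu
      dsimp only at hu
      split_ifs at hu with h1 h2
      · rw [hu, h1]
        rfl
      · exact absurd (hlu _ (by rw [hu]; exact List.mem_singleton.2 rfl)) hF
      · rw [hu]

theorem sound2 : (sys2 H).lang ⊆ G.lang := by
  intro w hw
  have key : ∀ y : List (L2 G), Relation.ReflTransGen (fun x y => ∃ i, Rw (tbl2 H i) x y)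
      (G.axm.map lift) y → ¬ Bad H y → G.Derives G.axm (proj y) := by
    intro y hy
    induction hy with
    | refl => intro _; rw [proj_lift]; exact Relation.ReflTransGen.refl
    | tail _ h ih =>
      intro hb
      obtain ⟨i, hi⟩ := h
      exact (ih fun hb' => hb (bad_step hi hb')).trans (step_proj hi hb)
  have h := key (w.map inl) hw ?_
  · have h2 : proj (w.map inl : List (L2 G)) = w.map inl := by
      have h3 := proj_lift (G := G) (w.map inl)
      rw [List.map_map] at h3
      exact h3
    rw [h2] at h
    exact h
  · rintro (h | ⟨g, h, -⟩)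
    · obtain ⟨a, -, ha⟩ := List.mem_map.1 h
      cases ha
    · obtain ⟨a, -, ha⟩ := List.mem_map.1 h
      cases ha

variable (H) in
/-- derivations of the new system -/
def Der2 : List (L2 G) → List (L2 G) → Prop :=
  Relation.ReflTransGen (fun x y => ∃ i, Rw (tbl2 H i) x y)

/-- the companions can be erased -/
theorem erase2 (gs : List G.V) : ∀ z : List (L2 G), (∀ v, bar v ∈ z → v ∈ gs) →
    (∀ g ∈ gs, inr (inl g) ∉ z) → Der2 H z ((proj z).map lift) := by
  classical
  induction gs with
  | nil =>
    intro z hz _
    have h : (proj z).map lift = z := by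
      clear * - hz
      induction z with
      | nil => rfl
      | cons l z ih =>
        have h1 := ih fun v hv => hz v (List.mem_cons_of_mem _ hv)
        rcases l with a | (v | v)
        · unfold proj at h1 ⊢
          rw [List.filterMap_cons_some (low_inl a), List.map_cons, h1]
          rfl
        · unfold proj at h1 ⊢
          rw [List.filterMap_cons_some (low_inr v), List.map_cons, h1]
          rfl
        · exact absurd (hz v List.mem_cons_self) List.not_mem_nil
    rw [h]
    exact Relation.ReflTransGen.refl
  | cons g gs ih =>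
    intro z hz hz'
    have hfil : Rw (tbl2 H (inr g)) z (z.filter fun l => decide (l ≠ bar g)) := by
      have hz'' : inr (inl g) ∉ z := hz' g List.mem_cons_self
      clear * - hz''
      induction z with
      | nil => exact Rw.nil
      | cons l z ih =>
        have h1 := ih fun h => hz'' (List.mem_cons_of_mem _ h)
        have hne : l ≠ inr (inl g) := fun h => hz'' (by rw [← h]; exact List.mem_cons_self)
        by_cases hl : l = bar g
        · rw [List.filter_cons_of_neg (by simpa using hl)]
          have h2 : ([] : List (L2 G)) ∈ tbl2 H (inr g) l := by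
            unfold tbl2
            dsimp only
            rw [if_pos hl]
            rfl
          have h3 := Rw.cons h2 h1
          rw [List.nil_append] at h3
          exact h3
        · rw [List.filter_cons_of_pos (by simpa using hl)]
          have h2 : [l] ∈ tbl2 H (inr g) l := by
            unfold tbl2
            dsimp only
            rw [if_neg hl, if_neg hne]
            rfl
          exact Rw.cons h2 h1
    have hproj : proj (z.filter fun l => decide (l ≠ bar g)) = proj z := by
      unfold proj
      rw [List.filterMap_filter]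
      refine List.filterMap_congr ?_
      intro l _
      by_cases hl : l = bar g
      · rw [if_neg (by simpa using hl), hl]
        rfl
      · rw [if_pos (by simpa using hl)]
    refine Relation.ReflTransGen.head ⟨_, hfil⟩ ?_
    rw [← hproj]
    refine ih _ ?_ ?_
    · intro v hv
      rw [List.mem_filter] at hv
      rcases List.mem_cons.1 (hz v hv.1) with h | h
      · exfalso
        have := hv.2
        rw [h] at this
        simp at this
      · exact h
    · intro g' hg' h
      exact hz' g' (List.mem_cons_of_mem _ hg') (List.mem_filter.1 h).1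

/-- the first step of the simulation of a table -/
theorem exists_z {i : G.ι} {x x' : List (T ⊕ G.V)} (h : Rw (G.table i) x x')
    (hg : ∀ g ∈ H.guard i, inr g ∉ x) :
    ∃ z : List (L2 G), Rw (tbl2 H (inl i)) (x.map lift) z ∧ proj z = x' ∧
      ∀ v, bar v ∈ z → v ∈ H.guard i := by
  induction h with
  | nil => exact ⟨[], Rw.nil, rfl, by simp⟩
  | @cons c u x x' hu _ ih =>
    obtain ⟨z, h1, h2, h3⟩ := ih fun g hg' h => hg g hg' (List.mem_cons_of_mem _ h)
    by_cases hc : c = inr (H.main i)
    · refine ⟨(u.map lift ++ (H.guard i).map bar) ++ z, ?_, ?_, ?_⟩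
      · rw [List.map_cons]
        refine Rw.cons ?_ h1
        unfold tbl2
        dsimp only
        rw [if_pos (by rw [hc]; rfl)]
        refine ⟨u, ?_, rfl⟩
        rw [← hc]
        exact hu
      · rw [proj_append, proj_append, proj_lift, proj_bar, List.append_nil, h2]
      · intro v hv
        rcases List.mem_append.1 hv with hv | hv
        · rcases List.mem_append.1 hv with hv | hv
          · obtain ⟨l, -, hl⟩ := List.mem_map.1 hv
            rcases l with a | v' <;> cases hl
          · obtain ⟨v', hv', hl⟩ := List.mem_map.1 hv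
            have : v' = v := by simpa [bar] using hl
            rw [← this]
            exact hv'
        · exact h3 v hv
    · refine ⟨lift c :: z, ?_, ?_, ?_⟩
      · rw [List.map_cons]
        have h4 : [lift c] ∈ tbl2 H (inl i) (lift c) := by
          unfold tbl2
          dsimp only
          rw [if_neg, if_neg]
          · rfl
          · rcases c with a | v <;> simp [lift, bar]
          · rcases c with a | v
            · simp [lift]
            · simpa [lift] using hc
        exact Rw.cons h4 h1
      · have h5 : G.table i c = {[c]} := by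
          refine H.fixed i c hc ?_
          rintro g hg' rfl
          exact hg g hg' List.mem_cons_self
        rw [h5] at hu
        rw [hu, show lift c :: z = [c].map lift ++ z from rfl, proj_append, proj_lift, h2]
      · intro v hv
        rcases List.mem_cons.1 hv with hv | hv
        · rcases c with a | v' <;> cases hv
        · exact h3 v hv

theorem complete2 : G.lang ⊆ (sys2 H).lang := by
  intro w hw
  have key : ∀ x : List (T ⊕ G.V), G.Derives G.axm x → inr H.F ∉ x →
      Der2 H (G.axm.map lift) (x.map lift) := by
    intro x hx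
    induction hx with
    | refl => intro _; exact Relation.ReflTransGen.refl
    | @tail x x' _ h ih =>
      intro hF
      obtain ⟨i, hi⟩ := h
      have hFx : inr H.F ∉ x := by
        intro h
        obtain ⟨u, hu, hl⟩ := hi.mem_of h
        rw [H.F_fixed] at hu
        exact hF (hl _ (by rw [hu]; exact List.mem_singleton.2 rfl))
      have hgx : ∀ g ∈ H.guard i, inr g ∉ x := by
        intro g hg h
        obtain ⟨u, hu, hl⟩ := hi.mem_of h
        rw [H.killed i g hg] at hu
        exact hF (hl _ (by rw [hu]; exact List.mem_singleton.2 rfl))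
      have hgx' : ∀ g ∈ H.guard i, inr g ∉ x' := by
        intro g hg h
        obtain ⟨c, hc, u, hu, hl⟩ := hi.letter h
        by_cases hcm : c = inr (H.main i)
        · rw [hcm] at hu
          exact H.img_not i u hu g hg hl
        · rw [H.fixed i c hcm (by rintro g' hg' rfl; exact hgx g' hg' hc)] at hu
          rw [hu] at hl
          exact hgx g hg (by rw [List.mem_singleton.1 hl]; exact hc)
      refine (ih hFx).trans ?_
      obtain ⟨z, h1, h2, h3⟩ := exists_z (H := H) hi hgx
      refine Relation.ReflTransGen.head ⟨_, h1⟩ ?_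
      rw [← h2]
      refine erase2 (H.guard i) z h3 ?_
      intro g hg h
      refine hgx' g hg ?_
      rw [← h2]
      exact mem_proj.2 h
  have h := key (w.map inl) hw ?_
  · have h2 : (w.map inl : List (T ⊕ G.V)).map lift = (w.map inl : List (L2 G)) := by
      rw [List.map_map]
      rfl
    rw [h2] at h
    exact h
  · intro h
    obtain ⟨a, -, ha⟩ := List.mem_map.1 h
    cases ha

/-- Guarded systems are equivalent to 2-restricted systems. -/
theorem Guarded.exists_two (H : Guarded G) : ∃ G' : ET0L T, G'.Restricted 2 ∧ G'.lang = G.lang :=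
  ⟨sys2 H, sys2_restricted H, Set.Subset.antisymm sound2 complete2⟩

end

section

variable {T : Type} (G : ET0L T) {K m : ℕ} (act : ZMod K → Option (Option G.ι))
  (e : (T ⊕ G.V) ≃ Fin m)

open Classical in
/-- the guards of the tables of the system `newSys` -/
noncomputable def grd : Idx (T ⊕ G.V) K m → List (NT (T ⊕ G.V) K m)
  | Idx.mv P _ => [NT.D 0 P]
  | Idx.dv j P => if h : j.val < m then
      [NT.D ⟨j.val + 1, by omega⟩ P, NT.C (e.symm ⟨j.val, h⟩) (P - 1)]
      else [NT.M (P - 1) false, NT.M (P - 1) true]
  | Idx.cv _ P χ => if act (P - 1) ≠ none then [NT.M (P - 1) false, NT.M (P - 1) true]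
      else [NT.M (P - 1) false, NT.M P (!χ)]
  | Idx.er _ => [NT.M (-1) false, NT.M 0 false]

/-- the main letters of the tables of the system `newSys` -/
def mn : Idx (T ⊕ G.V) K m → NT (T ⊕ G.V) K m
  | Idx.mv P χ => NT.M P χ
  | Idx.dv j P => NT.D j P
  | Idx.cv c P _ => NT.C c (P - 1)
  | Idx.er j => NT.D j 0

variable {G act e}

theorem main_eq (i : Idx (T ⊕ G.V) K m) : main G i = inr (mn G i) := by
  cases i <;> rfl

theorem mem_guardD' {j : Fin (m + 1)} {P : ZMod K} {g : NT (T ⊕ G.V) K m} :
    inr g ∈ guardD G e j P ↔ g ∈ grd G act e (Idx.dv j P) := by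
  unfold guardD grd
  dsimp only
  by_cases h : j.val < m
  · rw [dif_pos h, dif_pos h]
    simp
  · rw [dif_neg h, dif_neg h]
    simp

theorem mem_guardC' {c : T ⊕ G.V} {P : ZMod K} {χ : Bool} {g : NT (T ⊕ G.V) K m} :
    inr g ∈ guardC G act P χ ↔ g ∈ grd G act e (Idx.cv c P χ) := by
  unfold guardC grd
  dsimp only
  by_cases h : act (P - 1) ≠ none
  · rw [if_pos h, if_pos h]
    simp
  · rw [if_neg h, if_neg h]
    simp

theorem grd_ne {i : Idx (T ⊕ G.V) K m} {g : NT (T ⊕ G.V) K m} (hg : g ∈ grd G act e i) :
    g ≠ mn G i := by
  rintro rfl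
  cases i with
  | mv P χ =>
    unfold grd mn at hg
    simp at hg
  | dv j P =>
    rw [← mem_guardD', mem_guardD] at hg
    unfold mn at hg
    rcases hg with ⟨h, h1 | h1⟩ | ⟨h, h1 | h1⟩
    · have h2 := congrArg (fun z : Lt T (T ⊕ G.V) K m => match z with
        | inr (NT.D j _) => j.val
        | _ => 0) h1
      simp at h2
    · cases h1
    · cases h1
    · cases h1
  | cv c P χ =>
    rw [← mem_guardC', mem_guardC] at hg
    unfold mn at hg
    rcases hg with ⟨h, h1 | h1⟩ | ⟨h, h1 | h1⟩ <;> cases h1
  | er j =>
    unfold grd mn at hg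
    simp at hg

theorem tbl_killed {i : Idx (T ⊕ G.V) K m} {g : NT (T ⊕ G.V) K m} (hg : g ∈ grd G act e i) :
    tbl G act e i (inr g) = {[inr NT.F]} := by
  have hne := grd_ne hg
  cases i with
  | mv P χ =>
    unfold tbl
    dsimp only
    unfold mn at hne
    unfold grd at hg
    rw [if_neg (fun h => hne (inr.inj h)), if_pos (by rw [List.mem_singleton.1 hg])]
  | dv j P =>
    unfold tbl
    dsimp only
    unfold mn at hne
    rw [if_neg (fun h => hne (inr.inj h)), if_pos (mem_guardD'.2 hg)]
  | cv c P χ =>
    unfold tbl
    dsimp only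
    unfold mn at hne
    rw [if_neg (fun h => hne (inr.inj h)), if_pos (mem_guardC'.2 hg)]
  | er j =>
    unfold tbl
    dsimp only
    unfold mn at hne
    unfold grd at hg
    rw [if_neg (fun h => hne (inr.inj h)), if_pos]
    simpa using hg

theorem tbl_fixed {i : Idx (T ⊕ G.V) K m} {x : Lt T (T ⊕ G.V) K m} (hx : x ≠ inr (mn G i))
    (hg : ∀ g ∈ grd G act e i, x ≠ inr g) : tbl G act e i x = {[x]} := by
  cases i with
  | mv P χ =>
    unfold tbl
    unfold mn at hx
    dsimp only at hx ⊢
    rw [if_neg hx, if_neg (hg _ (by unfold grd; simp))]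
  | dv j P =>
    unfold tbl
    unfold mn at hx
    dsimp only at hx ⊢
    rw [if_neg hx, if_neg]
    intro h
    rcases x with a | g
    · rcases mem_guardD.1 h with ⟨_, h1 | h1⟩ | ⟨_, h1 | h1⟩ <;> cases h1
    · exact hg g (mem_guardD'.1 h) rfl
  | cv c P χ =>
    unfold tbl
    unfold mn at hx
    dsimp only at hx ⊢
    rw [if_neg hx, if_neg]
    intro h
    rcases x with a | g
    · rcases mem_guardC.1 h with ⟨_, h1 | h1⟩ | ⟨_, h1 | h1⟩ <;> cases h1
    · exact hg g (mem_guardC'.1 h) rfl
  | er j =>
    unfold tbl
    unfold mn at hx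
    dsimp only at hx ⊢
    rw [if_neg hx, if_neg]
    rintro (h | h)
    · exact hg _ (by unfold grd; simp) h
    · exact hg _ (by unfold grd; simp) h

theorem tbl_img {i : Idx (T ⊕ G.V) K m} {u : Wd G K m} (hu : u ∈ tbl G act e i (inr (mn G i)))
    {g : NT (T ⊕ G.V) K m} (hg : g ∈ grd G act e i) : inr g ∉ u := by
  intro hgu
  have hne := grd_ne hg
  cases i with
  | mv P χ =>
    unfold tbl mn at hu
    dsimp only at hu
    rw [if_pos rfl] at hu
    unfold grd at hg
    rw [List.mem_singleton.1 hg] at hgu
    unfold next at hu
    split_ifs at hu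
    · rw [hu] at hgu
      cases hgu
    · obtain ⟨χ', -, rfl⟩ := hu
      simp at hgu
  | dv j P =>
    unfold tbl mn at hu
    dsimp only at hu
    rw [if_pos rfl] at hu
    rw [hu] at hgu
    have h1 := List.mem_singleton.1 hgu
    rw [← mem_guardD', h1, mem_guardD] at hg
    rcases hg with ⟨h, h1 | h1⟩ | ⟨h, h1 | h1⟩
    · have h2 := congrArg (fun z : Lt T (T ⊕ G.V) K m => match z with
        | inr (NT.D j _) => j.val
        | _ => 0) h1
      simp at h2
    · cases h1
    · cases h1
    · cases h1
  | cv c P χ =>
    unfold tbl mn at hu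
    dsimp only at hu
    rw [if_pos rfl] at hu
    rw [← mem_guardC', mem_guardC] at hg
    rcases op_letter hu hgu with ⟨d, h⟩ | ⟨a, h⟩ | h
    · rw [h] at hg
      rcases hg with ⟨_, h1 | h1⟩ | ⟨_, h1 | h1⟩ <;> cases h1
    · cases h
    · rw [h] at hg
      rcases hg with ⟨_, h1 | h1⟩ | ⟨_, h1 | h1⟩ <;> cases h1
  | er j =>
    unfold tbl mn at hu
    dsimp only at hu
    rw [if_pos rfl] at hu
    rw [hu] at hgu
    cases hgu

variable (G act e) in
/-- The system `newSys` is guarded. -/
noncomputable def guarded [Finite T] [NeZero K] : Guarded (newSys G act e) where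
  F := NT.F
  main := mn G
  guard := grd G act e
  F_fixed := fun i => F_fixed (i := i)
  fixed := fun i _ hx hg => tbl_fixed (i := i) hx hg
  killed := fun i _ hg => tbl_killed (i := i) hg
  img_not := fun i _ hu _ hg => tbl_img (i := i) hu hg

/-- Every ET0L language is generated by a 2-restricted system. -/
theorem exists_two {T : Type} [Finite T] (G : ET0L T) :
    ∃ G' : ET0L T, G'.Restricted 2 ∧ G'.lang = G.lang := by
  have := G.finV
  have := G.finι
  obtain ⟨m, ⟨e⟩⟩ := Finite.exists_equiv_fin (T ⊕ G.V)
  obtain ⟨t, ⟨f⟩⟩ := Finite.exists_equiv_fin G.ι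
  obtain ⟨G', h1, h2⟩ := (guarded G (actZ f) e).exists_two
  refine ⟨G', h1, ?_⟩
  rw [h2]
  exact Set.Subset.antisymm (sound (good_actZ f))
    (complete (good_actZ f) (actZ_table f) (actZ_final f))

/-- The families collapse from `2` on. -/
theorem family_eq_two {T : Type} [Finite T] {k : ℕ} (hk : 2 ≤ k) :
    Family k T = Family (k + 1) T := by
  ext L
  constructor
  · rintro ⟨G, hG, rfl⟩
    exact ⟨G, fun i => (hG i).trans (by exact_mod_cast Nat.le_succ k), rfl⟩
  · rintro ⟨G, -, rfl⟩
    obtain ⟨G', hG', h⟩ := exists_two G
    exact ⟨G', fun i => (hG' i).trans (by exact_mod_cast hk), h⟩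

end

end Pool.Agent.T6.H74.ET
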